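import Mathlib

/-! Definitions for sofic entropy of algebraic actions (Kerr-Li). -/

set_option autoImplicit false
open Filter

namespace Pool.Agent.P.MP_5ec319_an

/-- Amenability of a discrete group, in the form of the Folner condition. -/
def Amenable (Γ : Type) [Group Γ] [DecidableEq Γ] : Prop :=
  ∀ (F : Finset Γ) (ε : ℝ), 0 < ε → ∃ A : Finset Γ, A.Nonempty ∧
    ∀ s ∈ F, ((symmDiff (A.image fun a => s * a) A).card : ℝ) < ε * A.card

/-- A sofic approximation: sizes tend to infinity, asymptotically multiplicative and free. -/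
def IsSofic {Γ : Type} [Group Γ] (d : ℕ → ℕ) (σ : ∀ i, Γ → Equiv.Perm (Fin (d i))) : Prop :=
  Tendsto d atTop atTop ∧
  (∀ s t : Γ, Tendsto (fun i => ((Finset.univ.filter fun v => σ i (s * t) v ≠ σ i s (σ i t v)).card : ℝ) / d i)
    atTop (nhds 0)) ∧
  (∀ s t : Γ, s ≠ t → Tendsto (fun i => ((Finset.univ.filter fun v => σ i s v = σ i t v).card : ℝ) / d i)
    atTop (nhds 0))

/-- The Pontryagin dual `Hom(A, ℝ/ℤ)` with the topology of pointwise convergence. -/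
abbrev Dual (A : Type) [AddCommGroup A] : Type :=
  {χ : A → UnitAddCircle // ∀ a b, χ (a + b) = χ a + χ b}

/-- The dual action `(γ χ)(a) = χ(γ⁻¹ a)`. -/
noncomputable def act {Γ : Type} [Group Γ] {A : Type} [AddCommGroup A] [Module (MonoidAlgebra ℤ Γ) A]
    (γ : Γ) (χ : Dual A) : Dual A :=
  ⟨fun a => χ.1 (MonoidAlgebra.of ℤ Γ γ⁻¹ • a), fun a b => by simp only [smul_add, χ.2]⟩

/-- `ρ` is a dynamically generating continuous pseudometric on the dual of `A`. -/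
def IsGen (Γ : Type) [Group Γ] (A : Type) [AddCommGroup A] [Module (MonoidAlgebra ℤ Γ) A]
    (ρ : Dual A → Dual A → ℝ) : Prop :=
  Continuous (fun p : Dual A × Dual A => ρ p.1 p.2) ∧ (∀ x, ρ x x = 0) ∧ (∀ x y, ρ x y = ρ y x) ∧
  (∀ x y z, ρ x z ≤ ρ x y + ρ y z) ∧ ∀ x y, (∀ γ : Γ, ρ (act γ x) (act γ y) = 0) → x = y

/-- Kerr-Li sofic topological entropy of the dual action, computed with the pseudometric `ρ`:
`sup_ε inf_F inf_δ limsup_i (1/d_i) log N_ε(Map(ρ,F,δ,σ_i), ρ_∞)`. -/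
noncomputable def ent {Γ : Type} [Group Γ] {A : Type} [AddCommGroup A] [Module (MonoidAlgebra ℤ Γ) A]
    (d : ℕ → ℕ) (σ : ∀ i, Γ → Equiv.Perm (Fin (d i))) (ρ : Dual A → Dual A → ℝ) : EReal :=
  ⨆ (ε : ℝ) (_ : 0 < ε), ⨅ (F : Finset Γ) (δ : ℝ) (_ : 0 < δ),
    limsup (fun i => (((d i : ℝ)⁻¹ : ℝ) : EReal) *
      ENNReal.log (⨆ (S : Finset (Fin (d i) → Dual A))
        (_ : ∀ φ ∈ S, ∀ s ∈ F, Real.sqrt ((∑ v, ρ (φ (σ i s v)) (act s (φ v)) ^ 2) / d i) ≤ δ)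
        (_ : ∀ φ ∈ S, ∀ ψ ∈ S, φ ≠ ψ → ∃ v, ε ≤ ρ (φ v) (ψ v)), (S.card : ENNReal))) atTop

/-- The sofic entropy of the dual action of `A` equals `h`: generating pseudometrics exist and
each of them gives the value `h`. -/
def HasEnt {Γ : Type} [Group Γ] (d : ℕ → ℕ) (σ : ∀ i, Γ → Equiv.Perm (Fin (d i)))
    (A : Type) [AddCommGroup A] [Module (MonoidAlgebra ℤ Γ) A] (h : EReal) : Prop :=
  (∃ ρ, IsGen Γ A ρ) ∧ ∀ ρ, IsGen Γ A ρ → ent d σ ρ = h

end Pool.Agent.P.MP_5ec319_an
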