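import Pool.Agent.P.MP_5ec319_an.Tree

/-! Every countable module embeds in a boundedly generated compressible module. -/

set_option autoImplicit false
open Finset

namespace Pool.Agent.P.MP_5ec319_an

variable {Γ : Type} [Group Γ]

omit [Group Γ] in
theorem countable_ring [Countable Γ] : Countable (MonoidAlgebra ℤ Γ) :=
  MonoidAlgebra.coeff_injective.countable

theorem exists_envelope {I : Type} [Fintype I] [Nonempty I]
    (ι : Bool → (I → MonoidAlgebra ℤ Γ) →ₗ[MonoidAlgebra ℤ Γ] (I → MonoidAlgebra ℤ Γ))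
    (hι : ∀ (N : ℤ) (y : Bool → I → MonoidAlgebra ℤ Γ),
      2 * (sz N (y false) + sz N (y true)) ≤ sz N (ι false (y false) + ι true (y true)))
    (A : Type) [AddCommGroup A] [Module (MonoidAlgebra ℤ Γ) A] [Countable A] (N : ℤ)
    (hN : ∀ a : A, N • a = 0) :
    ∃ (B : Type) (_ : AddCommGroup B) (_ : Module (MonoidAlgebra ℤ Γ) B)
      (f : A →ₗ[MonoidAlgebra ℤ Γ] B) (π : (I → MonoidAlgebra ℤ Γ) →ₗ[MonoidAlgebra ℤ Γ] B),
      Function.Injective f ∧ Function.Surjective π ∧ (∀ b : B, N • b = 0) ∧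
      ∀ j (u v : Fin j → Bool) x, π (wmap ι (code (.inr ⟨j, u, v⟩)) x) = if u = v then π x else 0 := by
  classical
  obtain ⟨a, ha⟩ := exists_surjective_nat A
  obtain ⟨i0⟩ := ‹Nonempty I›
  let τ : Idx → (I → MonoidAlgebra ℤ Γ) →ₗ[MonoidAlgebra ℤ Γ] A := fun c =>
    match c with
    | .inl m => (LinearMap.toSpanSingleton _ _ (a m)).comp (LinearMap.proj i0)
    | .inr _ => 0
  let δ : Idx → Prop := fun c =>
    match c with
    | .inl _ => False
    | .inr r => r.2.1 = r.2.2
  let Φ : Idx → (I → MonoidAlgebra ℤ Γ) →ₗ[MonoidAlgebra ℤ Γ] A × (I → MonoidAlgebra ℤ Γ) := fun c =>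
    (τ c).prod ((if δ c then LinearMap.id else 0) - wmap ι (code c))
  let Ψ : (Idx →₀ (I → MonoidAlgebra ℤ Γ)) × (I → MonoidAlgebra ℤ Γ) →ₗ[MonoidAlgebra ℤ Γ]
      A × (I → MonoidAlgebra ℤ Γ) :=
    (Finsupp.lsum ℕ Φ).coprod (N • LinearMap.inr _ _ _)
  have hΦ : ∀ c x, (LinearMap.range Ψ).mkQ (Φ c x) = 0 := by
    intro c x
    rw [Submodule.mkQ_apply, Submodule.Quotient.mk_eq_zero]
    exact ⟨(Finsupp.single c x, 0), by simp [Ψ]⟩
  have hsurj : Function.Surjective ((LinearMap.range Ψ).mkQ.comp (LinearMap.inr _ _ _)) := by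
    intro b
    obtain ⟨⟨x, v⟩, rfl⟩ := (LinearMap.range Ψ).mkQ_surjective b
    obtain ⟨m, rfl⟩ := ha x
    refine ⟨v + wmap ι (code (.inl m)) (Pi.single i0 1), ?_⟩
    have e : (a m, v) = (LinearMap.inr (MonoidAlgebra ℤ Γ) A _
        (v + wmap ι (code (.inl m)) (Pi.single i0 1))) + Φ (.inl m) (Pi.single i0 1) := by
      simp [Φ, τ, δ]
    have h0 := hΦ (.inl m) (Pi.single i0 1)
    have h1 := congrArg (LinearMap.range Ψ).mkQ e
    rw [map_add (LinearMap.range Ψ).mkQ] at h1
    rw [h1, LinearMap.comp_apply]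
    exact (add_eq_left.2 h0).symm
  refine ⟨(A × (I → MonoidAlgebra ℤ Γ)) ⧸ LinearMap.range Ψ, inferInstance, inferInstance,
    (LinearMap.range Ψ).mkQ.comp (LinearMap.inl _ _ _),
    (LinearMap.range Ψ).mkQ.comp (LinearMap.inr _ _ _), ?_, hsurj, ?_, ?_⟩
  · rw [injective_iff_map_eq_zero]
    intro b hb
    rw [LinearMap.comp_apply, Submodule.mkQ_apply, Submodule.Quotient.mk_eq_zero] at hb
    obtain ⟨⟨x, z⟩, hxz⟩ := hb
    have h1 : ∑ c ∈ x.support, τ c (x c) = b := by
      have := congrArg Prod.fst hxz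
      simpa [Ψ, Φ, Finsupp.sum, Prod.fst_sum] using this
    have h2 : ∑ c ∈ x.support, wmap ι (code c) (x c) =
        ∑ c ∈ x.support, (if δ c then x c else 0) + N • z := by
      have := congrArg Prod.snd hxz
      simp only [Ψ, Φ, LinearMap.coprod_apply, Finsupp.coe_lsum, Finsupp.sum, Prod.snd_add,
        Prod.snd_sum, LinearMap.prod_apply, Function.prod_apply, LinearMap.sub_apply, LinearMap.smul_apply,
        LinearMap.inr_apply, Prod.smul_snd, LinearMap.inl_apply, Finset.sum_sub_distrib] at this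
      rw [sub_add_eq_add_sub, sub_eq_zero] at this
      rw [← this]
      congr 1
      refine Finset.sum_congr rfl fun c _ => ?_
      split_ifs <;> rfl
    have h3 := tree_strong (hι N) x x.support code code_prefix code_ne
    have h4 : sz N (∑ c ∈ x.support, (if δ c then x c else 0)) ≤ ∑ c ∈ x.support, sz N (x c) := by
      refine (sz_sum_le N _ _).trans (Finset.sum_le_sum fun c _ => ?_)
      split_ifs
      · exact le_rfl
      · rw [sz_zero]; exact Nat.zero_le _
    have h5 := sz_add_le N (∑ c ∈ x.support, (if δ c then x c else 0)) (N • z)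
    rw [sz_smul, ← h2] at h5
    have h6 : ∑ c ∈ x.support, sz N (x c) = 0 := by omega
    rw [← h1]
    refine Finset.sum_eq_zero fun c hc => ?_
    obtain ⟨r, hr⟩ := exists_of_sz (Finset.sum_eq_zero_iff.1 h6 c hc) i0
    rcases c with m | r'
    · change x (.inl m) i0 • a m = 0
      rw [hr, smul_assoc, hN]
    · rfl
  · intro b
    obtain ⟨v, rfl⟩ := hsurj b
    rw [← map_zsmul, LinearMap.comp_apply, Submodule.mkQ_apply, Submodule.Quotient.mk_eq_zero]
    exact ⟨(0, v), by simp [Ψ]⟩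
  · intro j u v x
    have := hΦ (.inr ⟨j, u, v⟩) x
    have e : Φ (.inr ⟨j, u, v⟩) x = LinearMap.inr (MonoidAlgebra ℤ Γ) A _
        ((if u = v then x else 0) - wmap ι (code (.inr ⟨j, u, v⟩)) x) := by
      simp only [Φ, τ, δ, LinearMap.prod_apply, Function.prod_apply, LinearMap.zero_apply, LinearMap.sub_apply,
        LinearMap.inr_apply]
      split_ifs <;> rfl
    rw [e, ← LinearMap.comp_apply, map_sub, sub_eq_zero] at this
    rw [← this]
    split_ifs
    · rfl
    · exact map_zero _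

end Pool.Agent.P.MP_5ec319_an
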