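import Pool.Agent.P.MP_5ec319_an.Top

/-! The dual of the group ring has infinite sofic entropy. -/

set_option autoImplicit false
open Filter

namespace Pool.Agent.P.MP_5ec319_an

variable {Γ : Type} [Group Γ]

/-- The character of the group ring with prescribed values on the group elements. -/
noncomputable def ch (x : Γ → UnitAddCircle) : Dual (MonoidAlgebra ℤ Γ) :=
  ⟨fun r => r.coeff.sum fun g n => n • x g, fun a b => by
    simp only [MonoidAlgebra.coeff_add]
    exact Finsupp.sum_add_index' (fun _ => zero_smul _ _) fun _ _ _ => add_smul _ _ _⟩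

theorem ch_of (x : Γ → UnitAddCircle) (g : Γ) : (ch x).1 (MonoidAlgebra.of ℤ Γ g) = x g := by
  simp [ch]

theorem act_ch (x : Γ → UnitAddCircle) (s g : Γ) :
    (act s (ch x)).1 (MonoidAlgebra.of ℤ Γ g) = x (s⁻¹ * g) := by
  rw [← ch_of x, map_mul]
  rfl

theorem dual_ext (χ ψ : Dual (MonoidAlgebra ℤ Γ))
    (h : ∀ g, χ.1 (MonoidAlgebra.of ℤ Γ g) = ψ.1 (MonoidAlgebra.of ℤ Γ g)) : χ = ψ := by
  refine Subtype.ext (funext fun r => ?_)
  rw [← hom_apply, ← hom_apply]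
  induction r using MonoidAlgebra.induction_on with
  | of g => exact h g
  | add r r' hr hr' => rw [map_add, map_add, hr, hr']
  | smul c r hr => rw [map_zsmul, map_zsmul, hr]

theorem exists_points (m : ℕ) : ∃ (c : Fin m → UnitAddCircle) (γ : ℝ), 0 < γ ∧
    ∀ k l, k ≠ l → γ ≤ ‖c k - c l‖ := by
  have : Infinite (Set.Ico (0 : ℝ) (0 + 1)) := Set.Ico.infinite (by norm_num)
  have : Infinite UnitAddCircle := Infinite.of_injective _ (AddCircle.equivIco 1 0).symm.injective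
  let c : Fin m → UnitAddCircle := fun k => Infinite.natEmbedding _ k
  have h : ∀ᶠ γ in nhdsWithin (0 : ℝ) (Set.Ioi 0), ∀ p : Fin m × Fin m, p.1 ≠ p.2 → γ ≤ ‖c p.1 - c p.2‖ := by
    refine eventually_all.2 fun p => ?_
    by_cases hp : p.1 = p.2
    · exact Eventually.of_forall fun _ h => absurd hp h
    · have : 0 < ‖c p.1 - c p.2‖ := norm_pos_iff.2 (sub_ne_zero.2 fun e =>
        hp (Fin.ext ((Infinite.natEmbedding _).injective e)))
      exact mem_nhdsWithin_of_mem_nhds ((eventually_le_nhds this).mono fun _ h _ => h)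
  obtain ⟨γ, h1, h2⟩ := (h.and self_mem_nhdsWithin).exists
  exact ⟨c, γ, h2, fun k l => h1 (k, l)⟩

/-- The microstate attached to a labelling of the vertices. -/
noncomputable def micro {n : ℕ} (τ : Γ → Equiv.Perm (Fin n)) (z : Fin n → UnitAddCircle) (v : Fin n) :
    Dual (MonoidAlgebra ℤ Γ) := ch fun g => z ((τ 1).symm (τ g⁻¹ v))

theorem micro_one {n : ℕ} (τ : Γ → Equiv.Perm (Fin n)) (z : Fin n → UnitAddCircle) (v : Fin n) :
    (micro τ z v).1 (MonoidAlgebra.of ℤ Γ 1) = z v := by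
  rw [micro, ch_of, inv_one, Equiv.symm_apply_apply]

variable {ρ : Dual (MonoidAlgebra ℤ Γ) → Dual (MonoidAlgebra ℤ Γ) → ℝ}
  {d : ℕ → ℕ} {σ : ∀ i, Γ → Equiv.Perm (Fin (d i))}

theorem micro_good (h : IsGen Γ (MonoidAlgebra ℤ Γ) ρ) (hσ : IsSofic d σ) (F : Finset Γ) {ε κ : ℝ}
    (hε : 0 < ε) (hκ : 0 < κ) : ∀ᶠ i in atTop, ∃ P : Fin (d i) → Prop, cnt P ≤ κ * d i ∧
      ∀ v, ¬ P v → ∀ s ∈ F, ∀ z, ρ (micro (σ i) z (σ i s v)) (act s (micro (σ i) z v)) < ε := by
  obtain ⟨E, ζ, hζ, H⟩ := h.close (fun g => MonoidAlgebra.of ℤ Γ g) dual_ext hε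
  have hκ' : 0 < κ / ((E ×ˢ F).card + 1) := by positivity
  filter_upwards [(eventually_all_finset (E ×ˢ F)).2 fun p _ => hσ.mul p.1⁻¹ p.2 hκ'] with i hi
  refine ⟨_, (cnt_exists (E ×ˢ F) _ _ hi).trans ?_, fun v hv s hs z => H _ _ fun g hg => ?_⟩
  · rw [show ((E ×ˢ F).card : ℝ) * (κ / ((E ×ˢ F).card + 1) * d i) =
      κ * d i * ((E ×ˢ F).card / ((E ×ˢ F).card + 1)) by field_simp]
    exact mul_le_of_le_one_right (by positivity) ((div_le_one (by positivity)).2 (by linarith))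
  · push Not at hv
    have := hv (g, s) (Finset.mem_product.2 ⟨hg, hs⟩)
    simp only at this
    rw [micro, micro, ch_of, act_ch, mul_inv_rev, inv_inv, this, sub_self, norm_zero]
    exact hζ.le

theorem micro_inMap (h : IsGen Γ (MonoidAlgebra ℤ Γ) ρ) (hσ : IsSofic d σ) (F : Finset Γ) {δ : ℝ}
    (hδ : 0 < δ) : ∀ᶠ i in atTop, ∀ z, InMap ρ (σ i) F δ (micro (σ i) z) := by
  obtain ⟨D, hD, hD'⟩ := h.bdd
  filter_upwards [hσ.pos, micro_good h hσ F (ε := δ / 2) (κ := δ ^ 2 / 2 / D ^ 2) (by positivity)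
    (by positivity)] with i hd hi z s hs
  obtain ⟨P, hP, hP'⟩ := hi
  rw [Real.sqrt_le_left hδ.le, div_le_iff₀ hd]
  refine (sum_le_cnt _ P (a := (δ / 2) ^ 2) (b := D ^ 2) (by positivity)
    (fun v hv => pow_le_pow_left₀ (h.nonneg _ _) (hP' v hv s hs z).le 2)
    (fun v => pow_le_pow_left₀ (h.nonneg _ _) (hD' _ _) 2)).trans ?_
  have h1 : D ^ 2 * cnt P ≤ δ ^ 2 / 2 * d i := by
    refine (mul_le_mul_of_nonneg_left hP (by positivity)).trans_eq ?_
    field_simp
  nlinarith [mul_pos (pow_pos hδ 2) hd]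

theorem ent_top (h : IsGen Γ (MonoidAlgebra ℤ Γ) ρ) (hσ : IsSofic d σ) : ent d σ ρ = ⊤ := by
  classical
  refine (EReal.eq_top_iff_forall_lt _).2 fun K₀ => ?_
  obtain ⟨K, hK0, hK⟩ : ∃ K : ℝ, K₀ < K ∧ 0 ≤ K := ⟨max K₀ 0 + 1, by linarith [le_max_left K₀ 0],
    by positivity⟩
  refine lt_of_lt_of_le (by exact_mod_cast hK0 : (K₀ : EReal) < K) ?_
  obtain ⟨m, hm⟩ := exists_nat_ge (Real.exp (2 * K))
  obtain ⟨c, γ, hγ, hc⟩ := exists_points (m + 1)
  obtain ⟨E, ζ, hζ, H⟩ := h.coord (MonoidAlgebra.of ℤ Γ 1) hγ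
  have hζ3 : 0 < ζ / 3 := by positivity
  refine le_ent hσ K (ζ / 3) hζ3 fun F δ hδ => ?_
  filter_upwards [micro_inMap h hσ F hδ, micro_good h hσ E hζ3 (κ := 1 / 2) (by norm_num)] with i h1 h2
  obtain ⟨P, hP, hP'⟩ := h2
  let T : Finset (Fin (d i) → Fin (m + 1)) :=
    Fintype.piFinset fun v => if P v then {0} else Finset.univ
  have hsep : ∀ y ∈ T, ∀ y' ∈ T, y ≠ y' →
      ∃ v, ζ / 3 ≤ ρ (micro (σ i) (c ∘ y) v) (micro (σ i) (c ∘ y') v) := by
    intro y hy y' hy' hne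
    obtain ⟨v, hv⟩ := Function.ne_iff.1 hne
    have hPv : ¬ P v := by
      intro hp
      have e1 := Fintype.mem_piFinset.1 hy v
      have e2 := Fintype.mem_piFinset.1 hy' v
      rw [if_pos hp, Finset.mem_singleton] at e1 e2
      exact hv (e1.trans e2.symm)
    by_contra hc'
    push Not at hc'
    have := H (micro (σ i) (c ∘ y) v) (micro (σ i) (c ∘ y') v) fun s hs => by
      have a1 := hP' v hPv s hs (c ∘ y)
      have a2 := hP' v hPv s hs (c ∘ y')
      have a3 := hc' (σ i s v)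
      rw [h.2.2.1] at a1
      have a4 := h.2.2.2.1 (act s (micro (σ i) (c ∘ y) v)) (micro (σ i) (c ∘ y) (σ i s v))
        (act s (micro (σ i) (c ∘ y') v))
      have a5 := h.2.2.2.1 (micro (σ i) (c ∘ y) (σ i s v)) (micro (σ i) (c ∘ y') (σ i s v))
        (act s (micro (σ i) (c ∘ y') v))
      linarith
    rw [micro_one, micro_one] at this
    exact absurd (hc _ _ hv) (not_le.2 this)
  refine ⟨T.image fun y => micro (σ i) (c ∘ y), fun φ hφ => ?_, fun φ hφ ψ hψ hne => ?_, ?_⟩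
  · obtain ⟨y, -, rfl⟩ := Finset.mem_image.1 hφ
    exact h1 _
  · obtain ⟨y, hy, rfl⟩ := Finset.mem_image.1 hφ
    obtain ⟨y', hy', rfl⟩ := Finset.mem_image.1 hψ
    exact hsep y hy y' hy' fun e => hne (by rw [e])
  · rw [Finset.card_image_of_injOn, Fintype.card_piFinset]
    · have e1 : Real.exp (K * d i) ≤ Real.exp (2 * K * cnt fun v => ¬ P v) := by
        have := cnt_not P
        exact Real.exp_le_exp.2 (by nlinarith)
      refine e1.trans ?_
      rw [cnt, Finset.mul_sum, Real.exp_sum]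
      push_cast
      refine Finset.prod_le_prod (fun _ _ => (Real.exp_pos _).le) fun v _ => ?_
      by_cases hp : P v
      · simp [hp]
      · simp only [hp, not_false_eq_true, if_true, if_false, mul_one, Finset.card_univ, Fintype.card_fin]
        push_cast
        linarith
    · intro y hy y' hy' e
      by_contra hne
      obtain ⟨v, hv⟩ := hsep y hy y' hy' hne
      simp only at e
      rw [e, h.2.1] at hv
      linarith

end Pool.Agent.P.MP_5ec319_an
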