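import Mathlib

/-! Integer arrays with a Vandermonde-type independence property modulo every integer. -/

set_option autoImplicit false
open Polynomial Finset

namespace Pool.Agent.P.MP_5ec319_an

/-- A ring, free of finite positive rank over `ℤ`, with many elements whose differences are units. -/
theorem exists_units (n : ℕ) : ∃ (O : Type) (_ : CommRing O) (m : ℕ) (_ : Module.Basis (Fin (m + 1)) ℤ O)
    (t : Fin n → O), ∀ i j, i ≠ j → IsUnit (t i - t j) := by
  classical
  let P : Finset (Fin n × Fin n) := Finset.univ.filter fun p => p.2 < p.1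
  let g : ℤ[X] := X * ∏ p ∈ P, (X ^ (p.1 : ℕ) - X ^ (p.2 : ℕ))
  have hm : ∀ p ∈ P, ((X : ℤ[X]) ^ (p.1 : ℕ) - X ^ (p.2 : ℕ)).Monic := by
    intro p hp
    have h : p.2 < p.1 := (Finset.mem_filter.1 hp).2
    refine (monic_X_pow _).sub_of_left ?_
    rw [degree_X_pow, degree_X_pow]
    exact_mod_cast h
  have hP : (∏ p ∈ P, ((X : ℤ[X]) ^ (p.1 : ℕ) - X ^ (p.2 : ℕ))).Monic := monic_prod_of_monic _ _ hm
  have hg : g.Monic := monic_X.mul hP
  have hgd : 0 < g.natDegree := by
    rw [monic_X.natDegree_mul hP, natDegree_X]; omega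
  have hlt : (1 : ℤ[X]).degree < g.degree := by
    rw [degree_one]; exact natDegree_pos_iff_degree_pos.1 hgd
  have hf : (g + 1).Monic := hg.add_of_left hlt
  have hfd : (g + 1).natDegree = g.natDegree := natDegree_add_eq_left_of_degree_lt hlt
  obtain ⟨m, hmm⟩ : ∃ m, (g + 1).natDegree = m + 1 := ⟨g.natDegree - 1, by omega⟩
  let pb := AdjoinRoot.powerBasis' hf
  have hdim : pb.dim = m + 1 := by rw [← hmm]; rfl
  refine ⟨AdjoinRoot (g + 1), inferInstance, m, pb.basis.reindex (finCongr hdim),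
    fun i => AdjoinRoot.mk (g + 1) (X ^ (i : ℕ)), ?_⟩
  have hu : IsUnit (AdjoinRoot.mk (g + 1) g) := by
    have h0 : AdjoinRoot.mk (g + 1) (g + 1) = 0 := AdjoinRoot.mk_self
    rw [map_add, map_one] at h0
    rw [eq_neg_of_add_eq_zero_left h0]
    exact isUnit_one.neg
  have key : ∀ i j : Fin n, j < i →
      IsUnit (AdjoinRoot.mk (g + 1) (X ^ (i : ℕ)) - AdjoinRoot.mk (g + 1) (X ^ (j : ℕ))) := by
    intro i j hij
    rw [← map_sub]
    refine isUnit_of_dvd_unit (map_dvd _ ?_) hu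
    exact Dvd.dvd.mul_left (Finset.dvd_prod_of_mem (fun p : Fin n × Fin n =>
      (X : ℤ[X]) ^ (p.1 : ℕ) - X ^ (p.2 : ℕ)) (a := (i, j)) (by simp [P, hij])) _
  intro i j hij
  rcases lt_or_gt_of_ne hij with h | h
  · have := (key j i h).neg
    rwa [neg_sub] at this
  · exact key i j h

theorem vander_dvd {O : Type} [CommRing O] {D : ℕ} (t : Fin D → O)
    (ht : ∀ i j, i ≠ j → IsUnit (t i - t j)) (N : O) (γ : Fin D → O)
    (h : ∀ i, N ∣ ∑ k, γ k * t i ^ (k : ℕ)) (k : Fin D) : N ∣ γ k := by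
  have hdet : IsUnit (Matrix.vandermonde t).det := by
    rw [Matrix.det_vandermonde]
    refine IsUnit.prod_iff.2 fun i _ => IsUnit.prod_iff.2 fun j hj => ht _ _ ?_
    exact (Finset.mem_Ioi.1 hj).ne'
  have h1 : γ = (Matrix.vandermonde t)⁻¹.mulVec ((Matrix.vandermonde t).mulVec γ) := by
    rw [Matrix.mulVec_mulVec, Matrix.nonsing_inv_mul _ hdet, Matrix.one_mulVec]
  rw [h1]
  change N ∣ ∑ i, (Matrix.vandermonde t)⁻¹ k i * (Matrix.vandermonde t).mulVec γ i
  refine Finset.dvd_sum fun i _ => Dvd.dvd.mul_left ?_ _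
  have : (Matrix.vandermonde t).mulVec γ i = ∑ k, γ k * t i ^ (k : ℕ) := by
    simp only [Matrix.mulVec, dotProduct, Matrix.vandermonde_apply]
    exact Finset.sum_congr rfl fun k _ => mul_comm _ _
  rw [this]; exact h i

/-- Integer rows `a τ`, any `card δ` of which detect divisibility by any integer `N`. -/
theorem exists_mds (T δ : Type) [Fintype T] [Fintype δ] :
    ∃ (m : ℕ) (a : T → δ × Fin (m + 1) → Fin (m + 1) → ℤ), ∀ (N : ℤ) (Q : Finset T),
      Fintype.card δ ≤ Q.card → ∀ c : δ × Fin (m + 1) → ℤ,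
      (∀ τ ∈ Q, ∀ l, N ∣ ∑ i, c i * a τ i l) → ∀ i, N ∣ c i := by
  classical
  obtain ⟨O, _, m, b, t, ht⟩ := exists_units (Fintype.card T)
  let eT := Fintype.equivFin T
  let eδ := Fintype.equivFin δ
  refine ⟨m, fun τ i l => b.repr (b i.2 * t (eT τ) ^ (eδ i.1 : ℕ)) l, ?_⟩
  intro N Q hQ c hc i
  obtain ⟨u, hu⟩ : ∃ u : Fin (Fintype.card δ) ↪ T, ∀ k, u k ∈ Q := by
    obtain ⟨Q', hQ', hcard⟩ := Finset.exists_subset_card_eq hQ
    exact ⟨((Finset.equivFinOfCardEq hcard).symm.toEmbedding).trans (Function.Embedding.subtype _),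
      fun k => hQ' ((Finset.equivFinOfCardEq hcard).symm k).2⟩
  let γ : Fin (Fintype.card δ) → O := fun k => ∑ l, c (eδ.symm k, l) • b l
  have hdiv : ∀ z : O, (∀ l, N ∣ b.repr z l) → (N : O) ∣ z := by
    intro z hz
    rw [← b.sum_repr z]
    refine Finset.dvd_sum fun l _ => ?_
    obtain ⟨w, hw⟩ := hz l
    rw [hw, zsmul_eq_mul, Int.cast_mul, mul_assoc]
    exact Dvd.intro _ rfl
  have hγ : (N : O) ∣ γ (eδ i.1) := by
    refine vander_dvd (fun k => t (eT (u k))) (fun k k' hk => ht _ _ ?_) N γ (fun k => hdiv _ fun l => ?_) _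
    · exact fun h => hk (u.injective (eT.injective h))
    · have := hc (u k) (hu k) l
      convert this using 1
      rw [Fintype.sum_prod_type, ← eδ.symm.sum_comp, map_sum, Finsupp.finsetSum_apply]
      refine Finset.sum_congr rfl fun k' _ => ?_
      simp only [γ, Finset.sum_mul, map_sum, Finsupp.finsetSum_apply, smul_mul_assoc, map_zsmul,
        Finsupp.smul_apply, smul_eq_mul, Equiv.apply_symm_apply]
  obtain ⟨w, hw⟩ := hγ
  have h2 : b.repr (γ (eδ i.1)) i.2 = c i := by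
    simp only [γ, Equiv.symm_apply_apply, map_sum, map_zsmul, Module.Basis.repr_self,
      Finsupp.finsetSum_apply, Finsupp.smul_apply, smul_eq_mul, Finsupp.single_apply]
    simp
  rw [← h2, hw, ← zsmul_eq_mul, map_zsmul, Finsupp.smul_apply, smul_eq_mul]
  exact Dvd.intro _ rfl

end Pool.Agent.P.MP_5ec319_an
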