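import Pool.Agent.P.MP_5ec319_an.Defs

/-! The overlap lemma and strong expansion in non-amenable groups. -/

set_option autoImplicit false
open Finset Filter Pointwise

namespace Pool.Agent.P.MP_5ec319_an

open Classical in
theorem exists_overlap (T : Type) [Fintype T] (J : ℕ) (hT : Fintype.card T ≤ 2 ^ J) :
    ∃ (Y : Type) (_ : Fintype Y) (_ : Nonempty Y) (X : T → Y → Prop), ∀ (I : Finset T), ∀ i ∈ I,
      (Fintype.card Y : ℝ) ≤ 8 * (J + 2) * I.card *
        ((Finset.univ.filter fun y => X i y ∧ ∀ t ∈ I, t ≠ i → ¬ X t y).card : ℝ) := by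
  refine ⟨Fin (J + 2) × (T → Fin (2 ^ (J + 1))), inferInstance,
    ⟨(0, fun _ => ⟨0, by positivity⟩)⟩, fun t y => (y.2 t : ℕ) < 2 ^ (J + 1 - y.1), ?_⟩
  intro I i hi
  have hm : 1 ≤ I.card := Finset.card_pos.2 ⟨i, hi⟩
  have hmT : I.card ≤ 2 ^ J := (Finset.card_le_univ I).trans hT
  set j := Nat.clog 2 (2 * I.card) with hj
  have h1 : 2 * I.card ≤ 2 ^ j := Nat.le_pow_clog one_lt_two _
  have h2 : j ≤ J + 1 := by
    rw [hj, Nat.clog_le_iff_le_pow one_lt_two, pow_succ]; omega
  have h3 : 2 ^ j ≤ 4 * I.card := by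
    have h4 : 2 ^ (j.pred) < 2 * I.card := Nat.pow_pred_clog_lt_self one_lt_two (by omega)
    have h5 : 2 ^ j ≤ 2 ^ (j.pred + 1) := Nat.pow_le_pow_right two_pos (by simp; omega)
    rw [pow_succ] at h5; omega
  set P := 2 ^ (J + 1) with hP
  set A := 2 ^ (J + 1 - j) with hA
  have hAP : A * 2 ^ j = P := by rw [hA, hP, ← pow_add]; congr 1; omega
  have hAle : A ≤ P := Nat.pow_le_pow_right two_pos (by omega)
  let sm : Finset (Fin P) := Finset.univ.filter fun a => (a : ℕ) < A
  have hsm : sm.card = A := by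
    simp only [sm]
    rw [Fin.card_filter_val_lt]; exact min_eq_right hAle
  let al : T → Finset (Fin P) := fun t => if t = i then sm else if t ∈ I then smᶜ else Finset.univ
  have hsub : (Fintype.piFinset al).card ≤ (Finset.univ.filter fun y : Fin (J + 2) × (T → Fin P) =>
      (y.2 i : ℕ) < 2 ^ (J + 1 - y.1) ∧ ∀ t ∈ I, t ≠ i → ¬ (y.2 t : ℕ) < 2 ^ (J + 1 - y.1)).card := by
    refine Finset.card_le_card_of_injOn (fun y => ((⟨j, by omega⟩ : Fin (J + 2)), y)) ?_ ?_
    · intro y hy
      have hy' := Fintype.mem_piFinset.1 (Finset.mem_coe.1 hy)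
      refine Finset.mem_coe.2 (Finset.mem_filter.2 ⟨Finset.mem_univ _, ?_, fun t ht hti => ?_⟩)
      · have := hy' i
        simp only [al, if_true, sm, Finset.mem_filter] at this
        exact this.2
      · have := hy' t
        simp only [al, if_neg hti, if_pos ht, sm, Finset.mem_compl, Finset.mem_filter,
          Finset.mem_univ, true_and] at this
        exact this
    · intro y _ y' _ h
      exact (Prod.ext_iff.1 h).2
  have hPpos : (0 : ℝ) < P := by positivity
  set p : ℝ := 1 / 2 ^ j with hp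
  have hAp : (A : ℝ) = P * p := by
    rw [hp, ← hAP]; push_cast; field_simp
  have hp0 : 0 < p := by positivity
  have hmp : (I.card : ℝ) * p ≤ 1 / 2 := by
    rw [hp, mul_one_div, div_le_div_iff₀ (by positivity) (by norm_num)]
    have : ((2 * I.card : ℕ) : ℝ) ≤ ((2 ^ j : ℕ) : ℝ) := by exact_mod_cast h1
    push_cast at this; linarith
  have hmp2 : 1 ≤ 4 * (I.card : ℝ) * p := by
    rw [hp, mul_one_div, le_div_iff₀ (by positivity)]
    have : ((2 ^ j : ℕ) : ℝ) ≤ ((4 * I.card : ℕ) : ℝ) := by exact_mod_cast h3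
    push_cast at this; linarith
  have hm' : (1 : ℝ) ≤ I.card := by exact_mod_cast hm
  let q : T → ℝ := fun t => if t = i then p else if t ∈ I then 1 - p else 1
  have hcard : ∀ t, ((al t).card : ℝ) = P * q t := by
    intro t
    simp only [al, q]
    split_ifs
    · rw [hsm, hAp]
    · rw [Finset.card_compl, hsm, Fintype.card_fin, Nat.cast_sub hAle, hAp]; ring
    · simp
  have hq : p / 2 ≤ ∏ t, q t := by
    rw [← Finset.mul_prod_erase Finset.univ q (Finset.mem_univ i)]
    have e1 : ∏ t ∈ Finset.univ.erase i, q t = (1 - p) ^ (I.card - 1) := by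
      rw [← Finset.card_erase_of_mem hi, ← Finset.prod_const,
        ← Finset.prod_subset (Finset.erase_subset_erase i (Finset.subset_univ I))]
      · refine Finset.prod_congr rfl fun t ht => ?_
        simp only [q, if_neg (Finset.ne_of_mem_erase ht), if_pos (Finset.mem_of_mem_erase ht)]
      · intro t ht ht'
        have h6 : t ≠ i := Finset.ne_of_mem_erase ht
        have h7 : t ∉ I := fun h => ht' (Finset.mem_erase.2 ⟨h6, h⟩)
        simp only [q, if_neg h6, if_neg h7]
    have e2 := one_add_mul_le_pow (a := -p) (by nlinarith) (I.card - 1)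
    rw [Nat.cast_sub hm, ← sub_eq_add_neg] at e2
    rw [e1]
    simp only [q, if_true]
    push_cast at e2
    nlinarith
  have hpi : ((Fintype.piFinset al).card : ℝ) = P ^ Fintype.card T * ∏ t, q t := by
    rw [Fintype.card_piFinset, Nat.cast_prod, Finset.prod_congr rfl fun t _ => hcard t,
      Finset.prod_mul_distrib, Finset.prod_const, Finset.card_univ]
  have hsub' : ((Fintype.piFinset al).card : ℝ) ≤ _ := Nat.cast_le.2 hsub
  rw [Fintype.card_prod, Fintype.card_fin, Fintype.card_fun, Fintype.card_fin]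
  push_cast
  have hW : (0 : ℝ) < (P : ℝ) ^ Fintype.card T := by positivity
  have hJ : (0 : ℝ) < (J : ℝ) + 2 := by positivity
  refine le_trans ?_ (mul_le_mul_of_nonneg_left hsub' (by positivity))
  rw [hpi]
  have : 1 ≤ 8 * (I.card : ℝ) * ∏ t, q t := by nlinarith
  calc ((J : ℝ) + 2) * (P : ℝ) ^ Fintype.card T = ((J : ℝ) + 2) * (P : ℝ) ^ Fintype.card T * 1 := by ring
    _ ≤ ((J : ℝ) + 2) * (P : ℝ) ^ Fintype.card T * (8 * (I.card : ℝ) * ∏ t, q t) := by gcongr
    _ = _ := by ring

theorem expand_one {Γ : Type} [Group Γ] [DecidableEq Γ] (h : ¬ Amenable Γ) :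
    ∃ (S : Finset Γ) (l : ℝ), 1 < l ∧ ∀ A : Finset Γ, l * A.card ≤ (A * S).card := by
  unfold Amenable at h
  push Not at h
  obtain ⟨F, ε, hε, hF⟩ := h
  refine ⟨insert 1 (F.image (·⁻¹)), 1 + ε / 2, by linarith, fun A => ?_⟩
  rcases A.eq_empty_or_nonempty with rfl | hA
  · simp
  set B := A.image (·⁻¹) with hB
  have hBc : B.card = A.card := Finset.card_image_of_injective _ inv_injective
  obtain ⟨s, hs, hle⟩ := hF B (hA.image _)
  set C := B.image fun a => s * a with hC
  have hCc : C.card = B.card := Finset.card_image_of_injective _ (mul_right_injective s)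
  have h1 : (symmDiff C B).card ≤ (C \ B).card + (B \ C).card := by
    rw [symmDiff_def]; exact Finset.card_union_le _ _
  have h2 : (C \ B).card = (B \ C).card := Finset.card_sdiff_comm hCc
  have h3 : (C \ B).card + B.card = (C ∪ B).card := Finset.card_sdiff_add_card C B
  have h4 : (C ∪ B).card ≤ (A * insert 1 (F.image (·⁻¹))).card := by
    refine Finset.card_le_card_of_injOn (·⁻¹) ?_ (inv_injective.injOn)
    intro x hx
    rcases Finset.mem_union.1 (Finset.mem_coe.1 hx) with hx | hx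
    · obtain ⟨b, hb, rfl⟩ := Finset.mem_image.1 hx
      obtain ⟨a, ha, rfl⟩ := Finset.mem_image.1 hb
      refine Finset.mem_coe.2 (Finset.mem_mul.2 ⟨a, ha, s⁻¹, ?_, by simp⟩)
      exact Finset.mem_insert_of_mem (Finset.mem_image_of_mem _ hs)
    · obtain ⟨a, ha, rfl⟩ := Finset.mem_image.1 hx
      exact Finset.mem_coe.2 (Finset.mem_mul.2 ⟨a, ha, 1, Finset.mem_insert_self _ _, by simp⟩)
  have h5 : ((symmDiff C B).card : ℝ) + 2 * A.card ≤ 2 * (A * insert 1 (F.image (·⁻¹))).card := by
    exact_mod_cast (by omega : (symmDiff C B).card + 2 * A.card ≤ 2 * (A * insert 1 (F.image (·⁻¹))).card)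
  rw [hBc] at hle
  linarith

theorem expand_big {Γ : Type} [Group Γ] [DecidableEq Γ] (h : ¬ Amenable Γ) :
    ∃ (S : Finset Γ) (J : ℕ), S.card ≤ 2 ^ J ∧
      ∀ A : Finset Γ, (16 * (J + 2) + 4 : ℝ) * A.card ≤ (A * S).card := by
  obtain ⟨S, l, hl, hS⟩ := expand_one h
  have hk : ∀ k : ℕ, ∀ A : Finset Γ, l ^ k * A.card ≤ (A * S ^ k).card := by
    intro k
    induction k with
    | zero => intro A; simp
    | succ k ih =>
      intro A
      rw [pow_succ S, ← mul_assoc, pow_succ' l, mul_assoc]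
      exact (mul_le_mul_of_nonneg_left (ih A) (by linarith)).trans (hS _)
  obtain ⟨k, hk1, hk2⟩ : ∃ k : ℕ, 1 ≤ k ∧ (16 * S.card + 36 : ℝ) * k ≤ l ^ k := by
    have ht := tendsto_pow_const_div_const_pow_of_one_lt 1 hl
    have hpos : (0 : ℝ) < 1 / (16 * S.card + 36) := by positivity
    obtain ⟨k, h1, h2⟩ := ((ht.eventually (gt_mem_nhds hpos)).and (eventually_ge_atTop 1)).exists
    refine ⟨k, h2, ?_⟩
    rw [pow_one, div_lt_div_iff₀ (by positivity) (by positivity)] at h1
    linarith
  refine ⟨S ^ k, S.card * k, ?_, fun A => le_trans ?_ (hk k A)⟩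
  · rw [pow_mul]
    exact Finset.card_pow_le.trans (Nat.pow_le_pow_left Nat.lt_two_pow_self.le k)
  · refine mul_le_mul_of_nonneg_right (le_trans ?_ hk2) (Nat.cast_nonneg _)
    have : (1 : ℝ) ≤ k := by exact_mod_cast hk1
    push_cast; nlinarith

end Pool.Agent.P.MP_5ec319_an
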