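import Pool.Agent.P.MP_5ec319_an.Overlap
import Pool.Agent.P.MP_5ec319_an.MDS

/-! A support-expanding form of Bartholdi's injective map, modulo every integer. -/

set_option autoImplicit false
open Finset Pointwise

namespace Pool.Agent.P.MP_5ec319_an

section supp
variable {Γ : Type} [Group Γ] {I : Type} [Fintype I]

open Classical in
/-- The support modulo `N` of a vector of group ring elements. -/
noncomputable def nsupp (N : ℤ) (φ : I → MonoidAlgebra ℤ Γ) : Finset Γ :=
  (Finset.univ.biUnion fun i => (φ i).coeff.support).filter fun g => ∃ i, ¬ N ∣ (φ i).coeff g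

omit [Group Γ] in
theorem mem_nsupp {N : ℤ} {φ : I → MonoidAlgebra ℤ Γ} {g : Γ} :
    g ∈ nsupp N φ ↔ ∃ i, ¬ N ∣ (φ i).coeff g := by
  classical
  unfold nsupp
  rw [Finset.mem_filter]
  refine ⟨fun h => h.2, fun ⟨i, hi⟩ => ⟨?_, i, hi⟩⟩
  simp only [Finset.mem_biUnion, Finset.mem_univ, true_and, Finsupp.mem_support_iff]
  exact ⟨i, fun h => hi (h ▸ dvd_zero N)⟩

omit [Group Γ] in
theorem not_mem_nsupp {N : ℤ} {φ : I → MonoidAlgebra ℤ Γ} {g : Γ} :
    g ∉ nsupp N φ ↔ ∀ i, N ∣ (φ i).coeff g := by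
  rw [mem_nsupp]; push Not; rfl

/-- Size of the support modulo `N`. -/
noncomputable def sz (N : ℤ) (φ : I → MonoidAlgebra ℤ Γ) : ℕ := (nsupp N φ).card

theorem sz_zero (N : ℤ) : sz N (0 : I → MonoidAlgebra ℤ Γ) = 0 := by
  rw [sz, Finset.card_eq_zero, Finset.eq_empty_iff_forall_notMem]
  intro g; rw [not_mem_nsupp]; intro i; simp

theorem sz_add_le (N : ℤ) (φ ψ : I → MonoidAlgebra ℤ Γ) : sz N (φ + ψ) ≤ sz N φ + sz N ψ := by
  classical
  refine le_trans (Finset.card_le_card fun g hg => ?_) (Finset.card_union_le _ _)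
  by_contra h
  rw [Finset.mem_union, not_or, not_mem_nsupp, not_mem_nsupp] at h
  refine not_mem_nsupp.2 (fun i => ?_) hg
  simpa using dvd_add (h.1 i) (h.2 i)

theorem sz_sum_le {α : Type} (N : ℤ) (s : Finset α) (x : α → I → MonoidAlgebra ℤ Γ) :
    sz N (∑ a ∈ s, x a) ≤ ∑ a ∈ s, sz N (x a) := by
  classical
  induction s using Finset.induction_on with
  | empty => simp [sz_zero]
  | insert a s ha ih =>
    rw [Finset.sum_insert ha, Finset.sum_insert ha]
    exact (sz_add_le N _ _).trans (by omega)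

theorem sz_smul (N : ℤ) (z : I → MonoidAlgebra ℤ Γ) : sz N (N • z) = 0 := by
  rw [sz, Finset.card_eq_zero, Finset.eq_empty_iff_forall_notMem]
  intro g; rw [not_mem_nsupp]; intro i
  rw [Pi.smul_apply, MonoidAlgebra.coeff_smul_apply, smul_eq_mul]
  exact Dvd.intro _ rfl

theorem exists_of_sz {N : ℤ} {φ : I → MonoidAlgebra ℤ Γ} (h : sz N φ = 0) (i : I) :
    ∃ r, φ i = N • r := by
  rw [sz, Finset.card_eq_zero, Finset.eq_empty_iff_forall_notMem] at h
  refine ⟨.ofCoeff ((φ i).coeff.mapRange (· / N) (by simp)), MonoidAlgebra.coeff_injective ?_⟩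
  ext g
  rw [MonoidAlgebra.coeff_smul_apply, smul_eq_mul, Finsupp.mapRange_apply,
    Int.mul_ediv_cancel' (not_mem_nsupp.1 (h g) i)]

end supp

theorem averaging {Γ : Type} [Group Γ] [DecidableEq Γ] (F S G : Finset Γ) :
    ((F * S).card : ℝ) - G.card ≤ ∑ f ∈ F, ∑ s ∈ S.filter (fun s => f * s ∉ G),
      1 / ((S.filter fun t => f * s * t⁻¹ ∈ F).card : ℝ) := by
  have h1 : ∑ f ∈ F, ∑ s ∈ S.filter (fun s => f * s ∉ G),
      1 / ((S.filter fun t => f * s * t⁻¹ ∈ F).card : ℝ) =
      ∑ g ∈ (F * S) \ G, ∑ s ∈ S.filter (fun s => g * s⁻¹ ∈ F),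
        1 / ((S.filter fun t => g * t⁻¹ ∈ F).card : ℝ) := by
    rw [Finset.sum_comm' (t' := S) (s' := fun s => F.filter fun f => f * s ∉ G) (by simp; tauto),
      Finset.sum_comm' (s := (F * S) \ G) (t' := S)
        (s' := fun s => ((F * S) \ G).filter fun g => g * s⁻¹ ∈ F) (by simp; tauto)]
    refine Finset.sum_congr rfl fun s hs => ?_
    refine Finset.sum_nbij' (fun f => f * s) (fun g => g * s⁻¹) ?_ ?_ ?_ ?_ ?_
    · intro f hf
      rw [Finset.mem_filter] at hf
      simp only [Finset.mem_filter, Finset.mem_sdiff, mul_inv_cancel_right]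
      exact ⟨⟨Finset.mul_mem_mul hf.1 hs, hf.2⟩, hf.1⟩
    · intro g hg
      simp only [Finset.mem_filter, Finset.mem_sdiff] at hg
      simp only [Finset.mem_filter, inv_mul_cancel_right]
      exact ⟨hg.2, hg.1.2⟩
    · intro f _; simp
    · intro g _; simp
    · intro f _; rfl
  rw [h1, Finset.sum_congr rfl (g := fun _ => (1 : ℝ))]
  · rw [Finset.sum_const, nsmul_eq_mul, mul_one, sub_le_iff_le_add]
    exact_mod_cast Finset.card_le_card_sdiff_add_card
  · intro g hg
    obtain ⟨f, hf, s, hs, rfl⟩ := Finset.mem_mul.1 (Finset.mem_sdiff.1 hg).1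
    have : 0 < (S.filter fun t => f * s * t⁻¹ ∈ F).card :=
      Finset.card_pos.2 ⟨s, Finset.mem_filter.2 ⟨hs, by simpa using hf⟩⟩
    rw [Finset.sum_const, nsmul_eq_mul]
    field_simp

theorem exists_robust {Γ : Type} [Group Γ] [DecidableEq Γ] (h : ¬ Amenable Γ) :
    ∃ (I : Type) (_ : Fintype I) (_ : Nonempty I)
      (ι : Bool → (I → MonoidAlgebra ℤ Γ) →ₗ[MonoidAlgebra ℤ Γ] (I → MonoidAlgebra ℤ Γ)),
      ∀ (N : ℤ) (y : Bool → I → MonoidAlgebra ℤ Γ),
        2 * (sz N (y false) + sz N (y true)) ≤ sz N (ι false (y false) + ι true (y true)) := by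
  classical
  obtain ⟨S, J, hS, hexp⟩ := expand_big h
  obtain ⟨Y, _, _, X, hX⟩ := exists_overlap S J (by simpa using hS)
  obtain ⟨m, a, ha⟩ := exists_mds (S × Y) (Bool × Y)
  let M : Bool → Matrix (Y × Fin (m + 1)) (Y × Fin (m + 1)) (MonoidAlgebra ℤ Γ) := fun k i o =>
    ∑ s : S, MonoidAlgebra.single (s : Γ) (if X s o.1 then a (s, o.1) ((k, i.1), i.2) o.2 else 0)
  refine ⟨Y × Fin (m + 1), inferInstance, inferInstance, fun k => (M k).vecMulLinear, fun N y => ?_⟩
  set Θ := (M false).vecMulLinear (y false) + (M true).vecMulLinear (y true) with hΘ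
  have hco : ∀ o g, (Θ o).coeff g = ∑ s : S, if X s o.1 then
      ∑ i : (Bool × Y) × Fin (m + 1), (y i.1.1 (i.1.2, i.2)).coeff (g * (s : Γ)⁻¹) * a (s, o.1) i o.2
      else 0 := by
    intro o g
    have e : ∀ k, (((M k).vecMulLinear (y k)) o).coeff g = ∑ s : S, if X s o.1 then
        ∑ i : Y × Fin (m + 1), (y k i).coeff (g * (s : Γ)⁻¹) * a (s, o.1) ((k, i.1), i.2) o.2 else 0 := by
      intro k
      change (∑ i, y k i * ∑ s : S, MonoidAlgebra.single (s : Γ)
        (if X s o.1 then a (s, o.1) ((k, i.1), i.2) o.2 else 0)).coeff g = _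
      simp only [Finset.mul_sum, MonoidAlgebra.coeff_sum, Finsupp.finsetSum_apply, MonoidAlgebra.coeff_mul_single_apply]
      rw [Finset.sum_comm]
      refine Finset.sum_congr rfl fun s _ => ?_
      split_ifs <;> simp
    rw [hΘ, Pi.add_apply, MonoidAlgebra.coeff_add, Finsupp.add_apply, e, e, ← Finset.sum_add_distrib]
    refine Finset.sum_congr rfl fun s _ => ?_
    split_ifs
    · simp only [Fintype.sum_prod_type, Fintype.sum_bool]; ring
    · simp
  set F := nsupp N (y false) ∪ nsupp N (y true) with hF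
  set G := nsupp N Θ with hG
  have hFy : ∀ g, g ∉ F ↔ ∀ k i, N ∣ (y k i).coeff g := by
    intro g
    rw [hF, Finset.mem_union, not_or, not_mem_nsupp, not_mem_nsupp, Bool.forall_bool]
  suffices H : 4 * F.card ≤ G.card by
    have h1 : sz N (y false) ≤ F.card := Finset.card_le_card Finset.subset_union_left
    have h2 : sz N (y true) ≤ F.card := Finset.card_le_card Finset.subset_union_right
    change _ ≤ G.card
    omega
  by_contra hlt
  have hlt' : (G.card : ℝ) < 4 * F.card := by exact_mod_cast not_le.1 hlt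
  have hav := averaging F S G
  obtain ⟨f, hf, hw⟩ : ∃ f ∈ F, (16 * (J + 2) : ℝ) < ∑ s ∈ S.filter (fun s => f * s ∉ G),
      1 / ((S.filter fun t => f * s * t⁻¹ ∈ F).card : ℝ) := by
    refine Finset.exists_lt_of_sum_lt ?_
    rw [Finset.sum_const, nsmul_eq_mul]
    have := hexp F
    nlinarith
  let Is : S → Finset S := fun s => Finset.univ.filter fun t => f * s * (t : Γ)⁻¹ ∈ F
  let U : S → Finset Y := fun s => Finset.univ.filter fun y => X s y ∧ ∀ t ∈ Is s, t ≠ s → ¬ X t y
  let S' : Finset S := Finset.univ.filter fun s => f * s ∉ G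
  let Q : Finset (S × Y) := (S'.sigma U).map (Equiv.sigmaEquivProd S Y).toEmbedding
  have hIs : ∀ s : S, (Is s).card = (S.filter fun t => f * s * t⁻¹ ∈ F).card := by
    intro s
    simp only [Is, Finset.univ_eq_attach]
    rw [Finset.filter_attach' S fun t : S => f * s * (t : Γ)⁻¹ ∈ F]
    simp only [Finset.card_map, Finset.card_attach]
    congr 1; ext t; simp
  have hsI : ∀ s : S, s ∈ Is s := fun s => by simp [Is, hf]
  have hQ : Fintype.card (Bool × Y) ≤ Q.card := by
    have e1 : (Q.card : ℝ) = ∑ s ∈ S', ((U s).card : ℝ) := by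
      simp only [Q, Finset.card_map, Finset.card_sigma]; push_cast; rfl
    have e2 : ∑ s ∈ S.filter (fun s => f * s ∉ G), 1 / ((S.filter fun t => f * s * t⁻¹ ∈ F).card : ℝ)
        = ∑ s ∈ S', 1 / ((Is s).card : ℝ) := by
      simp only [S', hIs, Finset.sum_filter]
      exact (Finset.sum_coe_sort S fun s => if f * s ∉ G then
        1 / ((S.filter fun t => f * s * t⁻¹ ∈ F).card : ℝ) else 0).symm
    have hY : (0 : ℝ) < Fintype.card Y := by exact_mod_cast Fintype.card_pos
    have e3 : (Fintype.card Y : ℝ) * ∑ s ∈ S', 1 / ((Is s).card : ℝ) ≤ 8 * (J + 2) * Q.card := by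
      rw [e1, Finset.mul_sum, Finset.mul_sum]
      refine Finset.sum_le_sum fun s _ => ?_
      have hp : (0 : ℝ) < (Is s).card := by exact_mod_cast Finset.card_pos.2 ⟨s, hsI s⟩
      rw [mul_one_div, div_le_iff₀ hp]
      have := hX (Is s) s (hsI s)
      calc _ ≤ _ := this
        _ = _ := by simp only [U]; ring_nf; congr!
    rw [e2] at hw
    have e4 : (2 * Fintype.card Y : ℝ) ≤ Q.card := by
      have hJ : (0 : ℝ) < 8 * (J + 2) := by positivity
      refine le_of_mul_le_mul_left ?_ hJ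
      nlinarith
    rw [Fintype.card_prod, Fintype.card_bool]
    exact_mod_cast e4
  have hall := ha N Q hQ (fun i => (y i.1.1 (i.1.2, i.2)).coeff f) ?_
  · exact (hFy f).2 (fun k i => hall ((k, i.1), i.2)) hf
  rintro ⟨s, o⟩ hτ l
  have hτ' : f * s ∉ G ∧ X s o ∧ ∀ t ∈ Is s, t ≠ s → ¬ X t o := by
    simpa [Q, S', U] using hτ
  have h0 := not_mem_nsupp.1 hτ'.1 (o, l)
  rw [hco, ← Finset.add_sum_erase _ _ (Finset.mem_univ s), if_pos hτ'.2.1] at h0
  simp only [mul_inv_cancel_right] at h0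
  refine (dvd_add_left (Finset.dvd_sum fun t ht => ?_)).1 h0
  split_ifs with hx
  · have : t ∉ Is s := fun h' => hτ'.2.2 t h' (Finset.ne_of_mem_erase ht) hx
    have h2 : f * s * (t : Γ)⁻¹ ∉ F := by simpa [Is] using this
    exact Finset.dvd_sum fun i _ => Dvd.dvd.mul_right ((hFy _).1 h2 _ _) _
  · exact dvd_zero _

end Pool.Agent.P.MP_5ec319_an
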