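import Pool.Agent.P.MP_5ec319_an.Defs

/-! Topological and combinatorial preliminaries for sofic entropy of dual actions. -/

set_option autoImplicit false
open Filter

namespace Pool.Agent.P.MP_5ec319_an

section dual
variable {B : Type} [AddCommGroup B]

theorem compact_dual : CompactSpace (Dual B) := by
  have h : IsClosed {χ : B → UnitAddCircle | ∀ a b, χ (a + b) = χ a + χ b} := by
    simp only [Set.ofPred_forall]
    exact isClosed_iInter fun a => isClosed_iInter fun b => isClosed_eq (by fun_prop) (by fun_prop)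
  exact isCompact_iff_compactSpace.1 h.isCompact

theorem continuous_eval (a : B) : Continuous fun χ : Dual B => χ.1 a :=
  (continuous_apply a).comp continuous_subtype_val

/-- A character as an additive homomorphism. -/
def hom (χ : Dual B) : B →+ UnitAddCircle := AddMonoidHom.mk' χ.1 χ.2

theorem hom_apply (χ : Dual B) (a : B) : hom χ a = χ.1 a := rfl

variable {Γ : Type} [Group Γ] [Module (MonoidAlgebra ℤ Γ) B]

theorem continuous_act (γ : Γ) : Continuous fun χ : Dual B => act γ χ :=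
  Continuous.subtype_mk (continuous_pi fun _ => continuous_eval _) _

theorem act_mul (s t : Γ) (χ : Dual B) : act (s * t) χ = act s (act t χ) := by
  refine Subtype.ext (funext fun a => ?_)
  change χ.1 _ = χ.1 _
  rw [mul_inv_rev, map_mul, mul_smul]

theorem exists_isGen [Countable B] : ∃ ρ, IsGen Γ B ρ := by
  have := compact_dual (B := B)
  have : TopologicalSpace.MetrizableSpace (Dual B) :=
    Topology.IsEmbedding.subtypeVal.metrizableSpace
  let := TopologicalSpace.metrizableSpaceMetric (Dual B)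
  refine ⟨dist, continuous_dist, dist_self, dist_comm, dist_triangle, fun x y h => ?_⟩
  have h1 := dist_eq_zero.1 (h 1)
  refine Subtype.ext (funext fun a => ?_)
  have := congrArg (fun χ : Dual B => χ.1 a) h1
  simpa only [act, inv_one, map_one, one_smul] using this

theorem IsGen.nonneg {ρ : Dual B → Dual B → ℝ} (h : IsGen Γ B ρ) (x y : Dual B) : 0 ≤ ρ x y := by
  have h1 := h.2.2.2.1 x y x
  rw [h.2.1, h.2.2.1 y x] at h1
  linarith

theorem IsGen.bdd {ρ : Dual B → Dual B → ℝ} (h : IsGen Γ B ρ) : ∃ D : ℝ, 0 < D ∧ ∀ x y, ρ x y ≤ D := by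
  have := compact_dual (B := B)
  obtain ⟨D, hD⟩ := (isCompact_range h.1).bddAbove
  exact ⟨max D 1, by positivity, fun x y => (hD ⟨(x, y), rfl⟩).trans (le_max_left _ _)⟩

end dual

theorem compact_lemma {X ι : Type} [TopologicalSpace X] [CompactSpace X] (f : ι → X → ℝ) (g : X → ℝ)
    (hf : ∀ a, Continuous (f a)) (hg : Continuous g) (ε : ℝ) (h : ∀ x, (∀ a, f a x ≤ 0) → g x < ε) :
    ∃ (E : Finset ι) (ζ : ℝ), 0 < ζ ∧ ∀ x, (∀ a ∈ E, f a x ≤ ζ) → g x < ε := by
  classical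
  have hK : IsCompact {x | ε ≤ g x} := (isClosed_le continuous_const hg).isCompact
  obtain ⟨t, ht⟩ := hK.elim_finite_subfamily_closed
    (fun p : ι × ℕ => {x | f p.1 x ≤ 1 / ((p.2 : ℝ) + 1)})
    (fun p => isClosed_le (hf _) continuous_const) (by
      rw [Set.eq_empty_iff_forall_notMem]
      rintro x ⟨hx, hx'⟩
      refine absurd (h x fun a => ?_) (not_lt.2 hx)
      by_contra hc
      obtain ⟨n, hn⟩ := exists_nat_one_div_lt (not_le.1 hc)
      exact absurd (Set.mem_iInter.1 hx' (a, n)) (not_le.2 hn))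
  refine ⟨t.image Prod.fst, 1 / (((t.sup Prod.snd : ℕ) : ℝ) + 1), by positivity, fun x hx => ?_⟩
  by_contra hc
  refine Set.eq_empty_iff_forall_notMem.1 ht x ⟨not_lt.1 hc, Set.mem_iInter₂.2 fun p hp => ?_⟩
  refine (hx _ (Finset.mem_image_of_mem _ hp)).trans ?_
  have : (p.2 : ℝ) ≤ ((t.sup Prod.snd : ℕ) : ℝ) := by exact_mod_cast Finset.le_sup (f := Prod.snd) hp
  exact one_div_le_one_div_of_le (by positivity) (by linarith)

section gen
variable {B : Type} [AddCommGroup B] {Γ : Type} [Group Γ] [Module (MonoidAlgebra ℤ Γ) B]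
  {ρ : Dual B → Dual B → ℝ}

/-- Characters that are close on enough coordinates are `ρ`-close. -/
theorem IsGen.close (h : IsGen Γ B ρ) {ι : Type} (e : ι → B)
    (he : ∀ χ ψ : Dual B, (∀ a, χ.1 (e a) = ψ.1 (e a)) → χ = ψ) {ε : ℝ} (hε : 0 < ε) :
    ∃ (E : Finset ι) (ζ : ℝ), 0 < ζ ∧ ∀ χ ψ : Dual B,
      (∀ a ∈ E, ‖χ.1 (e a) - ψ.1 (e a)‖ ≤ ζ) → ρ χ ψ < ε := by
  have := compact_dual (B := B)
  obtain ⟨E, ζ, hζ, H⟩ := compact_lemma (X := Dual B × Dual B)
    (fun a p => ‖p.1.1 (e a) - p.2.1 (e a)‖) (fun p => ρ p.1 p.2)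
    (fun a => (((continuous_eval _).comp continuous_fst).sub
      ((continuous_eval _).comp continuous_snd)).norm) h.1 ε (fun p hp => by
      rw [he p.1 p.2 fun a => sub_eq_zero.1 (norm_le_zero_iff.1 (hp a)), h.2.1]
      exact hε)
  exact ⟨E, ζ, hζ, fun χ ψ => H (χ, ψ)⟩

/-- Characters whose translates are `ρ`-close are close at a given coordinate. -/
theorem IsGen.coord (h : IsGen Γ B ρ) (x : B) {ε : ℝ} (hε : 0 < ε) :
    ∃ (E : Finset Γ) (ζ : ℝ), 0 < ζ ∧ ∀ χ ψ : Dual B,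
      (∀ s ∈ E, ρ (act s χ) (act s ψ) ≤ ζ) → ‖χ.1 x - ψ.1 x‖ < ε := by
  have := compact_dual (B := B)
  obtain ⟨E, ζ, hζ, H⟩ := compact_lemma (X := Dual B × Dual B)
    (fun (s : Γ) p => ρ (act s p.1) (act s p.2)) (fun p => ‖p.1.1 x - p.2.1 x‖)
    (fun s => h.1.comp (((continuous_act s).comp continuous_fst).prodMk
      ((continuous_act s).comp continuous_snd)))
    ((((continuous_eval _).comp continuous_fst).sub
      ((continuous_eval _).comp continuous_snd)).norm) ε (fun p hp => by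
      rw [h.2.2.2.2 p.1 p.2 fun s => le_antisymm (hp s) (h.nonneg _ _), sub_self, norm_zero]
      exact hε)
  exact ⟨E, ζ, hζ, fun χ ψ => H (χ, ψ)⟩

end gen

open Classical in
/-- The number of points satisfying a predicate, as a real number. -/
noncomputable def cnt {n : ℕ} (P : Fin n → Prop) : ℝ := ∑ v, if P v then 1 else 0

section cnt
variable {n : ℕ}

theorem cnt_eq (P : Fin n → Prop) [DecidablePred P] : cnt P = ((Finset.univ.filter P).card : ℝ) := by
  rw [cnt, Finset.card_filter]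
  push_cast
  exact Finset.sum_congr rfl fun v _ => by congr

theorem cnt_nonneg (P : Fin n → Prop) : 0 ≤ cnt P := by
  classical rw [cnt_eq]; positivity

theorem cnt_mono {P Q : Fin n → Prop} (h : ∀ v, P v → Q v) : cnt P ≤ cnt Q := by
  classical
  rw [cnt_eq, cnt_eq]
  exact_mod_cast Finset.card_le_card (Finset.monotone_filter_right _ fun v _ => h v)

theorem cnt_or (P Q : Fin n → Prop) : cnt (fun v => P v ∨ Q v) ≤ cnt P + cnt Q := by
  classical
  rw [cnt_eq, cnt_eq, cnt_eq, Finset.filter_or]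
  exact_mod_cast Finset.card_union_le _ _

theorem cnt_false : cnt (fun _ : Fin n => False) = 0 := by simp [cnt]

theorem cnt_perm (P : Fin n → Prop) (τ : Equiv.Perm (Fin n)) : cnt (fun v => P (τ v)) = cnt P := by
  unfold cnt
  exact Equiv.sum_comp τ (fun v => @ite ℝ (P v) (Classical.propDecidable _) 1 0)

theorem cnt_not (P : Fin n → Prop) : cnt P + cnt (fun v => ¬ P v) = n := by
  classical
  rw [cnt_eq, cnt_eq]
  have := Finset.card_filter_add_card_filter_not (s := (Finset.univ : Finset (Fin n))) P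
  rw [Finset.card_univ, Fintype.card_fin] at this
  exact_mod_cast this

theorem cnt_exists {ι : Type} (E : Finset ι) (P : ι → Fin n → Prop) (κ : ℝ) (h : ∀ a ∈ E, cnt (P a) ≤ κ) :
    cnt (fun v => ∃ a ∈ E, P a v) ≤ E.card * κ := by
  classical
  induction E using Finset.induction_on with
  | empty => simp [cnt]
  | insert a E ha ih =>
    have h1 := ih fun b hb => h b (Finset.mem_insert_of_mem hb)
    have h2 := h a (Finset.mem_insert_self _ _)
    have h3 := cnt_or (P a) (fun v => ∃ b ∈ E, P b v)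
    have h4 : cnt (fun v => ∃ b ∈ insert a E, P b v) ≤ cnt (fun v => P a v ∨ ∃ b ∈ E, P b v) :=
      cnt_mono fun v hv => by simpa using hv
    rw [Finset.card_insert_of_notMem ha]
    push_cast
    linarith

theorem cnt_markov (f : Fin n → ℝ) {ζ : ℝ} (hζ : 0 < ζ) :
    cnt (fun v => ζ < f v) * ζ ^ 2 ≤ ∑ v, f v ^ 2 := by
  rw [cnt, Finset.sum_mul]
  refine Finset.sum_le_sum fun v _ => ?_
  split_ifs with h
  · rw [one_mul]; exact pow_le_pow_left₀ hζ.le h.le 2
  · rw [zero_mul]; positivity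

theorem sum_le_cnt (f : Fin n → ℝ) (P : Fin n → Prop) {a b : ℝ} (ha : 0 ≤ a) (h1 : ∀ v, ¬ P v → f v ≤ a)
    (h2 : ∀ v, f v ≤ b) : ∑ v, f v ≤ a * n + b * cnt P := by
  have : a * n = ∑ _v : Fin n, a := by simp [mul_comm]
  rw [this, cnt, Finset.mul_sum, ← Finset.sum_add_distrib]
  refine Finset.sum_le_sum fun v _ => ?_
  split_ifs with h
  · have := h2 v; linarith
  · have := h1 v h; linarith

end cnt

/-- Approximately equivariant maps. -/
def InMap {Γ : Type} [Group Γ] {B : Type} [AddCommGroup B] [Module (MonoidAlgebra ℤ Γ) B]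
    (ρ : Dual B → Dual B → ℝ) {n : ℕ} (τ : Γ → Equiv.Perm (Fin n)) (F : Finset Γ) (δ : ℝ)
    (φ : Fin n → Dual B) : Prop :=
  ∀ s ∈ F, Real.sqrt ((∑ v, ρ (φ (τ s v)) (act s (φ v)) ^ 2) / n) ≤ δ

/-- A property holding for a vanishing fraction of the vertices of good microstates. -/
def Small {Γ : Type} [Group Γ] {B : Type} [AddCommGroup B] [Module (MonoidAlgebra ℤ Γ) B]
    (ρ : Dual B → Dual B → ℝ) (d : ℕ → ℕ) (σ : ∀ i, Γ → Equiv.Perm (Fin (d i)))
    (P : ∀ i, (Fin (d i) → Dual B) → Fin (d i) → Prop) : Prop :=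
  ∀ κ : ℝ, 0 < κ → ∃ (F : Finset Γ) (δ : ℝ), 0 < δ ∧ ∀ᶠ i in atTop, ∀ φ, InMap ρ (σ i) F δ φ →
    cnt (P i φ) ≤ κ * d i

section small
variable {B : Type} [AddCommGroup B] {Γ : Type} [Group Γ] [Module (MonoidAlgebra ℤ Γ) B]
  {ρ : Dual B → Dual B → ℝ} {d : ℕ → ℕ} {σ : ∀ i, Γ → Equiv.Perm (Fin (d i))}
  {P Q : ∀ i, (Fin (d i) → Dual B) → Fin (d i) → Prop}

theorem Small.mono (h : Small ρ d σ Q) (hPQ : ∀ i φ v, P i φ v → Q i φ v) : Small ρ d σ P := by
  intro κ hκ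
  obtain ⟨F, δ, hδ, H⟩ := h κ hκ
  exact ⟨F, δ, hδ, H.mono fun i hi φ hφ => (cnt_mono (hPQ i φ)).trans (hi φ hφ)⟩

theorem Small.or (h : Small ρ d σ P) (h' : Small ρ d σ Q) :
    Small ρ d σ fun i φ v => P i φ v ∨ Q i φ v := by
  classical
  intro κ hκ
  obtain ⟨F, δ, hδ, H⟩ := h (κ / 2) (by positivity)
  obtain ⟨F', δ', hδ', H'⟩ := h' (κ / 2) (by positivity)
  refine ⟨F ∪ F', min δ δ', lt_min hδ hδ', (H.and H').mono fun i hi φ hφ => ?_⟩
  have h1 := hi.1 φ fun s hs => (hφ s (Finset.mem_union_left _ hs)).trans (min_le_left _ _)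
  have h2 := hi.2 φ fun s hs => (hφ s (Finset.mem_union_right _ hs)).trans (min_le_right _ _)
  have := cnt_or (P i φ) (Q i φ)
  linarith

theorem Small.exists {ι : Type} (E : Finset ι) (R : ι → ∀ i, (Fin (d i) → Dual B) → Fin (d i) → Prop)
    (h : ∀ a ∈ E, Small ρ d σ (R a)) : Small ρ d σ fun i φ v => ∃ a ∈ E, R a i φ v := by
  classical
  induction E using Finset.induction_on with
  | empty =>
    intro κ hκ
    refine ⟨∅, 1, one_pos, Eventually.of_forall fun i φ _ => ?_⟩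
    have : cnt (fun v => ∃ a ∈ (∅ : Finset ι), R a i φ v) = 0 := by simp [cnt]
    rw [this]; positivity
  | insert a E ha ih =>
    exact ((h a (Finset.mem_insert_self _ _)).or
      (ih fun b hb => h b (Finset.mem_insert_of_mem hb))).mono fun i φ v hv => by simpa using hv

theorem Small.perm (h : Small ρ d σ P) (s : Γ) : Small ρ d σ fun i φ v => P i φ (σ i s v) := by
  intro κ hκ
  obtain ⟨F, δ, hδ, H⟩ := h κ hκ
  exact ⟨F, δ, hδ, H.mono fun i hi φ hφ => (cnt_perm (P i φ) (σ i s)).trans_le (hi φ hφ)⟩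

theorem IsSofic.pos (hσ : IsSofic d σ) : ∀ᶠ i in atTop, (0 : ℝ) < d i :=
  (hσ.1.eventually_gt_atTop 0).mono fun _ hi => by exact_mod_cast hi

theorem IsSofic.mul (hσ : IsSofic d σ) (s t : Γ) {κ : ℝ} (hκ : 0 < κ) :
    ∀ᶠ i in atTop, cnt (fun v => σ i (s * t) v ≠ σ i s (σ i t v)) ≤ κ * d i := by
  filter_upwards [hσ.pos, (hσ.2.1 s t).eventually (gt_mem_nhds hκ)] with i h1 h2
  rw [cnt_eq]
  exact ((div_lt_iff₀ h1).1 h2).le

theorem small_mul (hσ : IsSofic d σ) (s t : Γ) :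
    Small ρ d σ fun i _ v => σ i (s * t) v ≠ σ i s (σ i t v) :=
  fun _ hκ => ⟨∅, 1, one_pos, (hσ.mul s t hκ).mono fun _ hi _ _ => hi⟩

theorem small_equiv (hσ : IsSofic d σ) (s : Γ) {ζ : ℝ} (hζ : 0 < ζ) :
    Small ρ d σ fun i φ v => ζ < ρ (φ (σ i s v)) (act s (φ v)) := by
  intro κ hκ
  refine ⟨{s}, Real.sqrt (κ * ζ ^ 2), by positivity, hσ.pos.mono fun i hi φ hφ => ?_⟩
  have h1 := hφ s (Finset.mem_singleton_self _)
  rw [Real.sqrt_le_sqrt_iff (by positivity), div_le_iff₀ hi] at h1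
  have h2 := cnt_markov (fun v => ρ (φ (σ i s v)) (act s (φ v))) hζ
  have h3 : 0 < ζ ^ 2 := by positivity
  refine le_of_mul_le_mul_right (h2.trans (h1.trans_eq ?_)) h3
  ring

/-- Good microstates are approximately equivariant at each coordinate, for most vertices. -/
theorem small_coord (h : IsGen Γ B ρ) (hσ : IsSofic d σ) (s : Γ) (x : B) {ζ : ℝ} (hζ : 0 < ζ) :
    Small ρ d σ fun i φ v => ζ < ‖(φ (σ i s v)).1 x - (act s (φ v)).1 x‖ := by
  obtain ⟨E, ξ, hξ, H⟩ := h.coord x hζ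
  have hξ2 : 0 < ξ / 2 := by positivity
  refine (Small.exists E _ fun t _ => ((small_equiv (ρ := ρ) hσ t hξ2).perm s).or
    ((small_mul hσ t s).or (small_equiv hσ (t * s) hξ2))).mono fun i φ v hv => ?_
  by_contra hc
  push Not at hc
  refine absurd (H _ _ fun t ht => ?_) (not_lt.2 hv.le)
  obtain ⟨h1, h2, h3⟩ := hc t ht
  have h4 := h.2.2.2.1 (act t (φ (σ i s v))) (φ (σ i t (σ i s v))) (act t (act s (φ v)))
  rw [h.2.2.1] at h1
  rw [h2, act_mul] at h3
  linarith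

theorem ent_le (hσ : IsSofic d σ)
    (H : ∀ ε : ℝ, 0 < ε → ∀ η : ℝ, 0 < η → ∃ (F : Finset Γ) (δ : ℝ), 0 < δ ∧ ∀ᶠ i in atTop,
      ∀ S : Finset (Fin (d i) → Dual B), (∀ φ ∈ S, InMap ρ (σ i) F δ φ) →
        (∀ φ ∈ S, ∀ ψ ∈ S, φ ≠ ψ → ∃ v, ε ≤ ρ (φ v) (ψ v)) → (S.card : ℝ) ≤ Real.exp (η * d i)) :
    ent d σ ρ ≤ 0 := by
  refine iSup₂_le fun ε hε => le_of_forall_gt_imp_ge_of_dense fun c hc => ?_
  obtain ⟨η, h1, h2⟩ := EReal.lt_iff_exists_real_btwn.1 hc
  obtain ⟨F, δ, hδ, H⟩ := H ε hε η (by exact_mod_cast h1)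
  refine iInf_le_of_le F (iInf₂_le_of_le δ hδ (le_trans ?_ h2.le))
  refine limsup_le_of_le (by isBoundedDefault) ((H.and hσ.pos).mono fun i hi => ?_)
  have h3 : ((η : ℝ) : EReal) = (((d i : ℝ)⁻¹ : ℝ) : EReal) * ((η * d i : ℝ) : EReal) := by
    rw [← EReal.coe_mul]
    congr 1
    have := hi.2
    field_simp
  rw [h3]
  refine mul_le_mul_of_nonneg_left ?_ (by exact_mod_cast inv_nonneg.2 hi.2.le)
  have h4 : ((η * d i : ℝ) : EReal) = ENNReal.log (ENNReal.ofReal (Real.exp (η * d i))) := by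
    rw [ENNReal.log_ofReal_of_pos (Real.exp_pos _), Real.log_exp]
  rw [h4]
  refine ENNReal.log_monotone (iSup_le fun S => iSup_le fun h5 => iSup_le fun h6 => ?_)
  rw [← ENNReal.ofReal_natCast]
  exact ENNReal.ofReal_le_ofReal (hi.1 S h5 h6)

theorem le_ent (hσ : IsSofic d σ) (K ε : ℝ) (hε : 0 < ε)
    (H : ∀ (F : Finset Γ) (δ : ℝ), 0 < δ → ∀ᶠ i in atTop,
      ∃ S : Finset (Fin (d i) → Dual B), (∀ φ ∈ S, InMap ρ (σ i) F δ φ) ∧
        (∀ φ ∈ S, ∀ ψ ∈ S, φ ≠ ψ → ∃ v, ε ≤ ρ (φ v) (ψ v)) ∧ Real.exp (K * d i) ≤ (S.card : ℝ)) :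
    (K : EReal) ≤ ent d σ ρ := by
  refine le_iSup₂_of_le ε hε (le_iInf fun F => le_iInf₂ fun δ hδ => ?_)
  refine le_limsup_of_frequently_le (((H F δ hδ).and hσ.pos).mono fun i hi => ?_).frequently
  obtain ⟨⟨S, h5, h6, h7⟩, hd⟩ := hi
  have h3 : ((K : ℝ) : EReal) = (((d i : ℝ)⁻¹ : ℝ) : EReal) * ((K * d i : ℝ) : EReal) := by
    rw [← EReal.coe_mul]
    congr 1
    field_simp
  rw [h3]
  refine mul_le_mul_of_nonneg_left ?_ (by exact_mod_cast inv_nonneg.2 hd.le)
  have h4 : ((K * d i : ℝ) : EReal) = ENNReal.log (ENNReal.ofReal (Real.exp (K * d i))) := by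
    rw [ENNReal.log_ofReal_of_pos (Real.exp_pos _), Real.log_exp]
  rw [h4]
  refine ENNReal.log_monotone (le_iSup_of_le S (le_iSup_of_le h5 (le_iSup_of_le h6 ?_)))
  rw [← ENNReal.ofReal_natCast]
  exact ENNReal.ofReal_le_ofReal h7

theorem ent_nonneg (h : IsGen Γ B ρ) (hσ : IsSofic d σ) : 0 ≤ ent d σ ρ := by
  refine le_ent hσ 0 1 one_pos fun F δ hδ => Eventually.of_forall fun i => ?_
  refine ⟨{fun _ => ⟨fun _ => 0, fun _ _ => by simp⟩}, fun φ hφ s _ => ?_, fun φ hφ ψ hψ hne => ?_, by simp⟩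
  · rw [Finset.mem_singleton.1 hφ]
    have : ρ ⟨fun _ => 0, fun _ _ => by simp⟩
        (act s (⟨fun _ => 0, fun _ _ => by simp⟩ : Dual B)) = 0 := h.2.1 _
    simp only [this]
    simpa using hδ.le
  · exact absurd ((Finset.mem_singleton.1 hφ).trans (Finset.mem_singleton.1 hψ).symm) hne

end small

end Pool.Agent.P.MP_5ec319_an
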