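import Pool.Agent.P.MP_5ec319_an.Robust

/-! Prefix-free families of words, patterns, and the envelope of a countable module. -/

set_option autoImplicit false
open Finset

namespace Pool.Agent.P.MP_5ec319_an

variable {Γ : Type} [Group Γ]

/-- Evaluation of a pattern: a signed sum of translates of the entries of `x`. -/
noncomputable def ev {I B : Type} [AddCommGroup B] [Module (MonoidAlgebra ℤ Γ) B]
    (W : List (ℤˣ × Γ × I)) (x : I → B) : B :=
  (W.map fun p => (p.1 : ℤ) • (MonoidAlgebra.of ℤ Γ p.2.1 • x p.2.2)).sum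

section ev
variable {I B : Type} [AddCommGroup B] [Module (MonoidAlgebra ℤ Γ) B]

theorem ev_nil (x : I → B) : ev ([] : List (ℤˣ × Γ × I)) x = 0 := rfl

theorem ev_cons (p : ℤˣ × Γ × I) (W : List (ℤˣ × Γ × I)) (x : I → B) :
    ev (p :: W) x = (p.1 : ℤ) • (MonoidAlgebra.of ℤ Γ p.2.1 • x p.2.2) + ev W x := by
  simp [ev]

theorem map_ev {C : Type} [AddCommGroup C] [Module (MonoidAlgebra ℤ Γ) C]
    (f : B →ₗ[MonoidAlgebra ℤ Γ] C) (W : List (ℤˣ × Γ × I)) (x : I → B) :
    f (ev W x) = ev W (fun i => f (x i)) := by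
  induction W with
  | nil => simp [ev_nil]
  | cons p W ih => rw [ev_cons, ev_cons, map_add, map_zsmul, map_smul, ih]

/-- `z` is a signed sum of at most `n` translates of entries of `x`. -/
def HasLen (Γ : Type) [Group Γ] [Module (MonoidAlgebra ℤ Γ) B] (x : I → B) (n : ℕ) (z : B) : Prop :=
  ∃ W : List (ℤˣ × Γ × I), W.length ≤ n ∧ ev W x = z

theorem HasLen.add {x : I → B} {m n : ℕ} {y z : B} (h : HasLen Γ x m y) (h' : HasLen Γ x n z) :
    HasLen Γ x (m + n) (y + z) := by
  obtain ⟨W, hW, rfl⟩ := h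
  obtain ⟨W', hW', rfl⟩ := h'
  exact ⟨W ++ W', by simp; omega, by simp [ev]⟩

theorem HasLen.mono {x : I → B} {m n : ℕ} {y : B} (h : HasLen Γ x m y) (hmn : m ≤ n) :
    HasLen Γ x n y := by
  obtain ⟨W, hW, rfl⟩ := h
  exact ⟨W, hW.trans hmn, rfl⟩

theorem HasLen.smul {x : I → B} {m : ℕ} {y : B} (h : HasLen Γ x m y) (ε : ℤˣ) (g : Γ) :
    HasLen Γ x m ((ε : ℤ) • (MonoidAlgebra.of ℤ Γ g • y)) := by
  obtain ⟨W, hW, rfl⟩ := h
  refine ⟨W.map fun p => (ε * p.1, g * p.2.1, p.2.2), by simpa using hW, ?_⟩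
  clear hW
  induction W with
  | nil => simp [ev_nil]
  | cons p W ih =>
    rw [List.map_cons, ev_cons, ev_cons, ih, smul_add, smul_add, map_mul, mul_smul, Units.val_mul,
      mul_smul, smul_comm (MonoidAlgebra.of ℤ Γ g) (p.1 : ℤ)]

theorem exists_hasLen {x : I → B} (hx : Submodule.span (MonoidAlgebra ℤ Γ) (Set.range x) = ⊤) (z : B) :
    ∃ n, HasLen Γ x n z := by
  have hz : z ∈ Submodule.span (MonoidAlgebra ℤ Γ) (Set.range x) := hx ▸ Submodule.mem_top
  have h0 : HasLen Γ x 0 0 := ⟨[], le_rfl, rfl⟩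
  induction hz using Submodule.span_induction with
  | mem y hy =>
    obtain ⟨i, rfl⟩ := hy
    exact ⟨1, [(1, 1, i)], le_rfl, by rw [ev_cons, ev_nil, map_one]; simp⟩
  | zero => exact ⟨0, h0⟩
  | add y z _ _ hy hz =>
    obtain ⟨m, hm⟩ := hy
    obtain ⟨n, hn⟩ := hz
    exact ⟨_, hm.add hn⟩
  | smul r y _ hy =>
    obtain ⟨m, hm⟩ := hy
    induction r using MonoidAlgebra.induction_on with
    | of g => exact ⟨m, by simpa using hm.smul 1 g⟩
    | add r r' hr hr' =>
      obtain ⟨n, hn⟩ := hr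
      obtain ⟨n', hn'⟩ := hr'
      exact ⟨_, by rw [add_smul]; exact hn.add hn'⟩
    | smul c r hr =>
      obtain ⟨n, hn⟩ := hr
      rw [smul_assoc]
      induction c using Int.induction_on with
      | zero => exact ⟨0, by rw [zero_smul]; exact h0⟩
      | succ k hk =>
        obtain ⟨n', hn'⟩ := hk
        exact ⟨_, by rw [add_smul, one_smul]; exact hn'.add hn⟩
      | pred k hk =>
        obtain ⟨n', hn'⟩ := hk
        have := hn.smul (-1) 1
        rw [map_one, one_smul, Units.val_neg, Units.val_one] at this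
        exact ⟨_, by rw [sub_eq_add_neg, add_smul]; exact hn'.add this⟩

theorem HasLen.map {x : I → B} {L n : ℕ} {z : B} (f : B →ₗ[MonoidAlgebra ℤ Γ] B)
    (hf : ∀ i, HasLen Γ x L (f (x i))) (h : HasLen Γ x n z) : HasLen Γ x (n * L) (f z) := by
  obtain ⟨W, hW, rfl⟩ := h
  refine HasLen.mono ?_ (Nat.mul_le_mul_right L hW)
  clear hW
  induction W with
  | nil => exact ⟨[], by simp, by simp [ev_nil]⟩
  | cons p W ih =>
    rw [ev_cons, map_add, map_zsmul, map_smul, List.length_cons, add_mul, one_mul, add_comm _ L]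
    exact ((hf _).smul _ _).add ih

end ev

/-- Composition of the maps `ι` along a word. -/
noncomputable def wmap {V : Type} [AddCommGroup V] [Module (MonoidAlgebra ℤ Γ) V]
    (ι : Bool → V →ₗ[MonoidAlgebra ℤ Γ] V) : List Bool → V →ₗ[MonoidAlgebra ℤ Γ] V
  | [] => LinearMap.id
  | k :: w => (ι k).comp (wmap ι w)

theorem wmap_append {V : Type} [AddCommGroup V] [Module (MonoidAlgebra ℤ Γ) V]
    (ι : Bool → V →ₗ[MonoidAlgebra ℤ Γ] V) (u w : List Bool) (x : V) :
    wmap ι (u ++ w) x = wmap ι u (wmap ι w x) := by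
  induction u with
  | nil => rfl
  | cons k u ih => simp [wmap, ih]

theorem HasLen.wmap {I V : Type} [AddCommGroup V] [Module (MonoidAlgebra ℤ Γ) V]
    (ι : Bool → V →ₗ[MonoidAlgebra ℤ Γ] V) {x : I → V} {L n : ℕ} {z : V}
    (hf : ∀ k i, HasLen Γ x L (ι k (x i))) (h : HasLen Γ x n z) (w : List Bool) :
    HasLen Γ x (n * L ^ w.length) (wmap ι w z) := by
  induction w with
  | nil => simpa [Pool.Agent.P.MP_5ec319_an.wmap] using h
  | cons k w ih =>
    rw [List.length_cons, pow_succ, ← mul_assoc]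
    exact ih.map (ι k) (hf k)

section tree
variable {I : Type} [Fintype I]
  {ι : Bool → (I → MonoidAlgebra ℤ Γ) →ₗ[MonoidAlgebra ℤ Γ] (I → MonoidAlgebra ℤ Γ)} {N : ℤ} {α : Type}

theorem tree_step (hι : ∀ y : Bool → I → MonoidAlgebra ℤ Γ,
      2 * (sz N (y false) + sz N (y true)) ≤ sz N (ι false (y false) + ι true (y true)))
    (x : α → I → MonoidAlgebra ℤ Γ) (n : ℕ)
    (ih : ∀ (s : Finset α) (w : α → List Bool), (∀ a ∈ s, (w a).length ≤ n) →
      (∀ a ∈ s, ∀ b ∈ s, w a <+: w b → a = b) → ∑ a ∈ s, sz N (x a) ≤ sz N (∑ a ∈ s, wmap ι (w a) (x a)))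
    (s : Finset α) (w : α → List Bool) (h1 : ∀ a ∈ s, (w a).length ≤ n + 1)
    (h2 : ∀ a ∈ s, ∀ b ∈ s, w a <+: w b → a = b) (h3 : ∀ a ∈ s, w a ≠ []) :
    2 * ∑ a ∈ s, sz N (x a) ≤ sz N (∑ a ∈ s, wmap ι (w a) (x a)) := by
  classical
  have hw : ∀ a ∈ s, w a = (w a).headI :: (w a).tail := fun a ha => by
    cases h : w a with
    | nil => exact absurd h (h3 a ha)
    | cons k l => rfl
  let y : Bool → I → MonoidAlgebra ℤ Γ := fun k =>
    ∑ a ∈ s.filter (fun a => (w a).headI = k), wmap ι (w a).tail (x a)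
  have hy : ∀ k, ∑ a ∈ s.filter (fun a => (w a).headI = k), sz N (x a) ≤ sz N (y k) := by
    intro k
    refine ih _ (fun a => (w a).tail) (fun a ha => ?_) (fun a ha b hb hab => ?_)
    · have := h1 a (Finset.mem_filter.1 ha).1
      rw [List.length_tail]; omega
    · rw [Finset.mem_filter] at ha hb
      refine h2 a ha.1 b hb.1 ?_
      rw [hw a ha.1, hw b hb.1, ha.2, hb.2]
      exact List.cons_prefix_cons.2 ⟨rfl, hab⟩
  have hs : ∀ {M : Type} [AddCommMonoid M] (f : α → M), ∑ a ∈ s, f a =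
      ∑ a ∈ s.filter (fun a => (w a).headI = false), f a + ∑ a ∈ s.filter (fun a => (w a).headI = true), f a := by
    intro M _ f
    rw [← Finset.sum_filter_add_sum_filter_not s (fun a => (w a).headI = false)]
    simp only [Bool.not_eq_false]
  have e : ∀ k, ∑ a ∈ s.filter (fun a => (w a).headI = k), wmap ι (w a) (x a) = ι k (y k) := by
    intro k
    simp only [y, map_sum]
    refine Finset.sum_congr rfl fun a ha => ?_
    rw [Finset.mem_filter] at ha
    conv_lhs => rw [hw a ha.1, ha.2]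
    rfl
  rw [hs (fun a => wmap ι (w a) (x a)), e, e, hs (fun a => sz N (x a))]
  have := hι y
  have := hy false
  have := hy true
  omega

theorem tree_weak (hι : ∀ y : Bool → I → MonoidAlgebra ℤ Γ,
      2 * (sz N (y false) + sz N (y true)) ≤ sz N (ι false (y false) + ι true (y true)))
    (x : α → I → MonoidAlgebra ℤ Γ) (n : ℕ) : ∀ (s : Finset α) (w : α → List Bool),
    (∀ a ∈ s, (w a).length ≤ n) → (∀ a ∈ s, ∀ b ∈ s, w a <+: w b → a = b) →
    ∑ a ∈ s, sz N (x a) ≤ sz N (∑ a ∈ s, wmap ι (w a) (x a)) := by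
  have single : ∀ (s : Finset α) (w : α → List Bool), (∀ a ∈ s, ∀ b ∈ s, w a <+: w b → a = b) →
      (∃ a ∈ s, w a = []) → ∑ a ∈ s, sz N (x a) ≤ sz N (∑ a ∈ s, wmap ι (w a) (x a)) := by
    rintro s w h2 ⟨a, ha, hw⟩
    have : s = {a} := Finset.eq_singleton_iff_unique_mem.2
      ⟨ha, fun b hb => (h2 a ha b hb (hw ▸ List.nil_prefix)).symm⟩
    rw [this, Finset.sum_singleton, Finset.sum_singleton, hw]
    exact le_rfl
  induction n with
  | zero =>
    intro s w h1 h2
    rcases s.eq_empty_or_nonempty with rfl | ⟨a, ha⟩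
    · simp
    · exact single s w h2 ⟨a, ha, List.length_eq_zero_iff.1 (Nat.le_zero.1 (h1 a ha))⟩
  | succ n ih =>
    intro s w h1 h2
    by_cases h : ∃ a ∈ s, w a = []
    · exact single s w h2 h
    · push Not at h
      have := tree_step hι x n ih s w h1 h2 h
      omega

theorem tree_strong (hι : ∀ y : Bool → I → MonoidAlgebra ℤ Γ,
      2 * (sz N (y false) + sz N (y true)) ≤ sz N (ι false (y false) + ι true (y true)))
    (x : α → I → MonoidAlgebra ℤ Γ) (s : Finset α) (w : α → List Bool)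
    (h2 : ∀ a b, w a <+: w b → a = b) (h3 : ∀ a, w a ≠ []) :
    2 * ∑ a ∈ s, sz N (x a) ≤ sz N (∑ a ∈ s, wmap ι (w a) (x a)) :=
  tree_step hι x (s.sup fun a => (w a).length) (tree_weak hι x _) s w
    (fun _ ha => (Finset.le_sup (f := fun a => (w a).length) ha).trans (Nat.le_succ _))
    (fun a _ b _ => h2 a b) (fun a _ => h3 a)

end tree

theorem unary_prefix (j j' : ℕ) (s s' : List Bool)
    (h : List.replicate j true ++ false :: s <+: List.replicate j' true ++ false :: s') :
    j = j' ∧ s <+: s' := by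
  induction j generalizing j' with
  | zero =>
    cases j' with
    | zero => simpa using h
    | succ j' => simp [List.replicate_succ] at h
  | succ j ih =>
    cases j' with
    | zero => simp [List.replicate_succ] at h
    | succ j' =>
      simp only [List.replicate_succ, List.cons_append, List.cons_prefix_cons, true_and] at h
      obtain ⟨h1, h2⟩ := ih j' h
      exact ⟨by omega, h2⟩

/-- Index set of the generators and of the relations of the envelope. -/
abbrev Idx : Type := ℕ ⊕ (Σ j : ℕ, (Fin j → Bool) × (Fin j → Bool))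

/-- The prefix-free code. -/
def code : Idx → List Bool
  | .inl m => false :: (List.replicate m true ++ false :: [])
  | .inr r => true :: (List.replicate r.1 true ++ false :: (List.ofFn r.2.1 ++ List.ofFn r.2.2))

theorem code_ne (c : Idx) : code c ≠ [] := by cases c <;> simp [code]

theorem code_prefix (a b : Idx) (h : code a <+: code b) : a = b := by
  rcases a with m | ⟨j, u, v⟩ <;> rcases b with m' | ⟨j', u', v'⟩ <;>
    simp only [code, List.cons_prefix_cons, true_and] at h
  · rw [(unary_prefix _ _ _ _ h).1]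
  · simp at h
  · simp at h
  · obtain ⟨rfl, h2⟩ := unary_prefix _ _ _ _ h
    have h3 := h2.eq_of_length (by simp)
    obtain ⟨h4, h5⟩ := List.append_inj h3 (by simp)
    rw [List.ofFn_injective h4, List.ofFn_injective h5]

/-- Every element can be coded `2^j` times simultaneously through `card I` coordinates. -/
def Compressible (Γ : Type) [Group Γ] (B : Type) [AddCommGroup B] [Module (MonoidAlgebra ℤ Γ) B] : Prop :=
  ∃ (I : Type) (_ : Fintype I) (L : ℕ), ∀ a : B, ∃ Λ : ℕ, ∀ j : ℕ,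
    ∃ (x : (Fin j → Bool) → I → B) (W : (Fin j → Bool) → List (ℤˣ × Γ × I)),
      ∀ v, (W v).length ≤ Λ * L ^ j ∧ ∀ u, ev (W v) (x u) = if u = v then a else 0

theorem span_single (I : Type) [Fintype I] [DecidableEq I] (R : Type) [Ring R] :
    Submodule.span R (Set.range fun i : I => (Pi.single i 1 : I → R)) = ⊤ := by
  have := (Pi.basisFun R I).span_eq
  convert this using 3
  ext i : 1
  rw [Pi.basisFun_apply]

theorem compressible_of {I : Type} [Fintype I]
    (ι : Bool → (I → MonoidAlgebra ℤ Γ) →ₗ[MonoidAlgebra ℤ Γ] (I → MonoidAlgebra ℤ Γ))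
    {B : Type} [AddCommGroup B] [Module (MonoidAlgebra ℤ Γ) B]
    (π : (I → MonoidAlgebra ℤ Γ) →ₗ[MonoidAlgebra ℤ Γ] B) (hπ : Function.Surjective π)
    (hrel : ∀ j (u v : Fin j → Bool) x, π (wmap ι (code (.inr ⟨j, u, v⟩)) x) = if u = v then π x else 0) :
    Compressible Γ B := by
  classical
  let e : I → I → MonoidAlgebra ℤ Γ := fun i => Pi.single i 1
  have he := exists_hasLen (Γ := Γ) (span_single I (MonoidAlgebra ℤ Γ))
  choose l hl using fun p : Bool × I => he (ι p.1 (e p.2))
  refine ⟨I, inferInstance, Finset.univ.sup l, fun a => ?_⟩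
  obtain ⟨z, rfl⟩ := hπ a
  obtain ⟨Λ, hΛ⟩ := he z
  refine ⟨Λ, fun j => ?_⟩
  have hf : ∀ k i, HasLen Γ e (Finset.univ.sup l) (ι k (e i)) := fun k i =>
    (hl (k, i)).mono (Finset.le_sup (f := l) (Finset.mem_univ _))
  choose W hW1 hW2 using fun v : Fin j → Bool => HasLen.wmap ι hf hΛ (List.ofFn v)
  refine ⟨fun u i => π (wmap ι (true :: (List.replicate j true ++ false :: List.ofFn u)) (e i)), W,
    fun v => ⟨by simpa using hW1 v, fun u => ?_⟩⟩
  have := map_ev (π.comp (wmap ι (true :: (List.replicate j true ++ false :: List.ofFn u)))) (W v) e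
  rw [hW2, LinearMap.comp_apply, ← wmap_append] at this
  rw [← hrel j u v z]
  refine Eq.trans this.symm ?_
  simp [code]

end Pool.Agent.P.MP_5ec319_an
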