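import Pool.Agent.P.MP_5ec319_an.Top
import Pool.Agent.P.MP_5ec319_an.Tree

/-! Compressible modules have zero sofic entropy. -/

set_option autoImplicit false
open Filter

namespace Pool.Agent.P.MP_5ec319_an

theorem exists_quant (Q : ℕ) (hQ : 0 < Q) :
    ∃ q : UnitAddCircle → Fin Q, ∀ x y, q x = q y → ‖x - y‖ ≤ 1 / (Q : ℝ) := by
  have hQ' : (0 : ℝ) < Q := by exact_mod_cast hQ
  let r : UnitAddCircle → ℝ := fun x => (AddCircle.equivIco 1 0 x : ℝ)
  have hr0 : ∀ x, 0 ≤ r x := fun x => (AddCircle.equivIco 1 0 x).2.1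
  have hr1 : ∀ x, r x < 1 := fun x => by simpa using (AddCircle.equivIco 1 0 x).2.2
  have hr : ∀ x, ((r x : ℝ) : UnitAddCircle) = x := fun x => AddCircle.coe_equivIco
  refine ⟨fun x => ⟨⌊r x * Q⌋₊, (Nat.floor_lt (mul_nonneg (hr0 x) hQ'.le)).2 (by nlinarith [hr1 x])⟩,
    fun x y h => ?_⟩
  have h1 : ⌊r x * Q⌋₊ = ⌊r y * Q⌋₊ := congrArg Fin.val h
  have h2 := Nat.floor_le (mul_nonneg (hr0 x) hQ'.le)
  have h3 := Nat.floor_le (mul_nonneg (hr0 y) hQ'.le)
  have h4 := Nat.lt_floor_add_one (r x * Q)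
  have h5 := Nat.lt_floor_add_one (r y * Q)
  rw [h1] at h2 h4
  rw [← hr x, ← hr y, ← AddCircle.coe_sub]
  refine QuotientAddGroup.norm_mk_le_norm.trans ?_
  rw [Real.norm_eq_abs, le_div_iff₀ hQ', ← abs_of_pos hQ', ← abs_mul, abs_le]
  constructor <;> nlinarith

theorem count_codes {α T₁ T₂ : Type} [Fintype T₁] [Fintype T₂] {n : ℕ} (X : Finset α)
    (c : α → Fin n → T₁ × Option T₂) (hc : Set.InjOn c X) (m β : ℝ) (hβ : 0 ≤ β)
    (hm : ∀ x ∈ X, cnt (fun w => (c x w).2.isSome = true) ≤ m) :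
    (X.card : ℝ) ≤ Real.exp (β * m) *
      (Fintype.card T₁ * (1 + Real.exp (-β) * Fintype.card T₂)) ^ n := by
  classical
  let wt : T₁ × Option T₂ → ℝ := fun t => Real.exp (-β * if t.2.isSome = true then 1 else 0)
  have h1 : ∀ x ∈ X, 1 ≤ Real.exp (β * m) * ∏ w, wt (c x w) := by
    intro x hx
    have := hm x hx
    rw [cnt] at this
    simp only [wt]
    rw [← Real.exp_sum, ← Real.exp_add, ← Finset.mul_sum]
    refine Real.one_le_exp ?_
    have e : (∑ w, if (c x w).2.isSome = true then (1 : ℝ) else 0) ≤ m := by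
      convert this
    nlinarith
  have h2 : ∑ t, wt t = Fintype.card T₁ * (1 + Real.exp (-β) * Fintype.card T₂) := by
    rw [Fintype.sum_prod_type]
    simp [wt, Fintype.sum_option, mul_comm, mul_add]
  have h3 : ∑ x ∈ X, ∏ w, wt (c x w) ≤ ∑ y : Fin n → T₁ × Option T₂, ∏ w, wt (y w) := by
    rw [← Finset.sum_image (f := fun y : Fin n → T₁ × Option T₂ => ∏ w, wt (y w)) hc]
    exact Finset.sum_le_sum_of_subset_of_nonneg (Finset.subset_univ _)
      fun y _ _ => Finset.prod_nonneg fun w _ => (Real.exp_pos _).le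
  have h4 : ∑ y : Fin n → T₁ × Option T₂, ∏ w, wt (y w) = (∑ t, wt t) ^ n := by
    rw [← Fintype.piFinset_univ, ← Finset.prod_univ_sum (fun _ : Fin n => Finset.univ) fun _ t => wt t]
    simp
  calc (X.card : ℝ) = ∑ _x ∈ X, 1 := by simp
    _ ≤ ∑ x ∈ X, Real.exp (β * m) * ∏ w, wt (c x w) := Finset.sum_le_sum h1
    _ ≤ _ := by
      rw [← Finset.mul_sum, ← h2, ← h4]
      exact mul_le_mul_of_nonneg_left h3 (Real.exp_pos _).le

theorem norm_list_sub {α M : Type} [SeminormedAddCommGroup M] (W : List α) (s : α → ℤˣ) (f g : α → M)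
    {ζ : ℝ} (h : ∀ p ∈ W, ‖f p - g p‖ ≤ ζ) :
    ‖(W.map fun p => (s p : ℤ) • f p).sum - (W.map fun p => (s p : ℤ) • g p).sum‖ ≤ W.length * ζ := by
  induction W with
  | nil => simp
  | cons p W ih =>
    have h1 := ih fun q hq => h q (List.mem_cons_of_mem _ hq)
    have h2 : ‖(s p : ℤ) • f p - (s p : ℤ) • g p‖ ≤ ζ := by
      have := h p List.mem_cons_self
      rcases Int.units_eq_one_or (s p) with e | e
      · simpa [e] using this
      · rw [e, norm_sub_rev]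
        simpa [sub_eq_add_neg, add_comm] using this
    simp only [List.map_cons, List.sum_cons, List.length_cons]
    rw [add_sub_add_comm]
    push_cast
    linarith [norm_add_le ((s p : ℤ) • f p - (s p : ℤ) • g p)
      ((W.map fun p => (s p : ℤ) • f p).sum - (W.map fun p => (s p : ℤ) • g p).sum)]

variable {B : Type} [AddCommGroup B] {Γ : Type} [Group Γ] [Module (MonoidAlgebra ℤ Γ) B]

theorem hom_ev {I : Type} (χ : Dual B) (W : List (ℤˣ × Γ × I)) (x : I → B) :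
    χ.1 (ev W x) = (W.map fun p => (p.1 : ℤ) • (act p.2.1⁻¹ χ).1 (x p.2.2)).sum := by
  rw [← hom_apply]
  induction W with
  | nil => simp [ev_nil]
  | cons p W ih =>
    rw [ev_cons, map_add, map_zsmul, ih, List.map_cons, List.sum_cons]
    simp only [act, inv_inv, hom_apply]

/-- Decoding: the value of one microstate is read off from the superposed coordinates. -/
theorem decode {I U : Type} [Fintype U] [DecidableEq U] {n : ℕ} (τ : Γ → Equiv.Perm (Fin n))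
    (Φ : U → Fin n → Dual B) (a : B) (x : U → I → B) (W : List (ℤˣ × Γ × I)) (v : U)
    (hW : ∀ u, ev W (x u) = if u = v then a else 0) (w : Fin n) {ζ : ℝ}
    (h : ∀ u, ∀ p ∈ W, ‖(Φ u (τ p.2.1⁻¹ w)).1 (x u p.2.2) - (act p.2.1⁻¹ (Φ u w)).1 (x u p.2.2)‖ ≤ ζ) :
    ‖(W.map fun p => (p.1 : ℤ) • ∑ u, (Φ u (τ p.2.1⁻¹ w)).1 (x u p.2.2)).sum - (Φ v w).1 a‖ ≤
      W.length * (Fintype.card U * ζ) := by
  have e : (Φ v w).1 a = (W.map fun p => (p.1 : ℤ) • ∑ u, (act p.2.1⁻¹ (Φ u w)).1 (x u p.2.2)).sum := by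
    have e1 : (Φ v w).1 a = ∑ u, (Φ u w).1 (ev W (x u)) := by
      rw [Finset.sum_eq_single v (fun u _ hu => by rw [hW, if_neg hu, ← hom_apply, map_zero]) (by simp),
        hW, if_pos rfl]
    rw [e1]
    simp only [hom_ev]
    clear e1 hW h
    induction W with
    | nil => simp
    | cons p W ih => simp only [List.map_cons, List.sum_cons, Finset.sum_add_distrib, ih, Finset.smul_sum]
  rw [e]
  refine norm_list_sub W (fun p => p.1) _ _ fun p hp => ?_
  rw [← Finset.sum_sub_distrib]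
  refine (norm_sum_le _ _).trans ((Finset.sum_le_sum fun u _ => h u p hp).trans ?_)
  simp

theorem exists_depth (C η : ℝ) (hC : 0 ≤ C) (hη : 0 < η) : ∃ j : ℕ, C * (j + 1) ≤ η * 2 ^ j := by
  obtain ⟨k, hk⟩ := exists_nat_ge (2 * C / η)
  refine ⟨2 * k, ?_⟩
  have h1 : ((k : ℝ) + 1) ≤ 2 ^ k := by exact_mod_cast Nat.lt_two_pow_self (n := k)
  rw [div_le_iff₀ hη] at hk
  have h2 : ((k : ℝ) + 1) ^ 2 ≤ (2 ^ k) ^ 2 := pow_le_pow_left₀ (by positivity) h1 2
  rw [pow_mul' 2 2 k]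
  push_cast
  have h3 : (0 : ℝ) ≤ k := Nat.cast_nonneg k
  nlinarith [mul_le_mul_of_nonneg_left h2 hη.le, mul_le_mul_of_nonneg_right hk (by positivity : (0 : ℝ) ≤ k + 1)]

theorem code_close {I U : Type} [Fintype U] [DecidableEq U] {n : ℕ} (τ : Γ → Equiv.Perm (Fin n))
    (Φ Ψ : U → Fin n → Dual B) (a : B) (x : U → I → B) (W : List (ℤˣ × Γ × I)) (v : U)
    (hW : ∀ u, ev W (x u) = if u = v then a else 0) (w : Fin n) {ζ γ : ℝ}
    (h : ∀ u, ∀ p ∈ W, ‖(Φ u (τ p.2.1⁻¹ w)).1 (x u p.2.2) - (act p.2.1⁻¹ (Φ u w)).1 (x u p.2.2)‖ ≤ ζ)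
    (h' : ∀ u, ∀ p ∈ W, ‖(Ψ u (τ p.2.1⁻¹ w)).1 (x u p.2.2) - (act p.2.1⁻¹ (Ψ u w)).1 (x u p.2.2)‖ ≤ ζ)
    (hc : ∀ w k, ‖∑ u, (Φ u w).1 (x u k) - ∑ u, (Ψ u w).1 (x u k)‖ ≤ γ) :
    ‖(Φ v w).1 a - (Ψ v w).1 a‖ ≤ W.length * (2 * (Fintype.card U * ζ) + γ) := by
  have h1 := decode τ Φ a x W v hW w h
  have h2 := decode τ Ψ a x W v hW w h'
  have h3 := norm_list_sub W (fun p => p.1) (fun p => ∑ u, (Φ u (τ p.2.1⁻¹ w)).1 (x u p.2.2))
    (fun p => ∑ u, (Ψ u (τ p.2.1⁻¹ w)).1 (x u p.2.2)) fun p _ => hc _ _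
  rw [← dist_eq_norm] at h1 h2 h3 ⊢
  rw [dist_comm] at h1
  linarith [dist_triangle4 ((Φ v w).1 a) _ _ ((Ψ v w).1 a) |>.trans (add_le_add (add_le_add h1 h3) h2)]

theorem exists_params (e L Λ : ℕ) {ζ η : ℝ} (hζ : 0 < ζ) (hη : 0 < η) :
    ∃ j Q : ℕ, 0 < Q ∧ 1 / (Q : ℝ) ≤ ζ ∧ (Λ * L ^ j : ℕ) * (1 / (Q : ℝ)) ≤ ζ / 2 ∧
      (Q : ℝ) ^ e ≤ Real.exp (η * 2 ^ j) := by
  obtain ⟨A, hA⟩ := exists_nat_ge (2 / ζ)
  rw [div_le_iff₀ hζ] at hA
  obtain ⟨j, hj⟩ := exists_depth (e * ((A + 1) * (Λ + 1) + (L + 1))) η (by positivity) hη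
  have hL : (1 : ℝ) ≤ (L + 1) ^ j := one_le_pow₀ (by simp)
  have hL' : (L : ℝ) ^ j ≤ (L + 1) ^ j := pow_le_pow_left₀ (by positivity) (by simp) j
  have hΛ : (0 : ℝ) ≤ Λ := Nat.cast_nonneg _
  have hA0 : (0 : ℝ) ≤ A := Nat.cast_nonneg _
  have hP : (1 : ℝ) ≤ (Λ + 1) * (L + 1) ^ j := by nlinarith
  have hP' : (Λ : ℝ) * L ^ j ≤ (Λ + 1) * (L + 1) ^ j := by nlinarith
  refine ⟨j, (A + 1) * ((Λ + 1) * (L + 1) ^ j), by positivity, ?_, ?_, ?_⟩
  · push_cast
    rw [div_le_iff₀ (by positivity)]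
    nlinarith
  · push_cast
    rw [mul_one_div, div_le_iff₀ (by positivity)]
    nlinarith
  · push_cast
    refine le_trans ?_ (Real.exp_le_exp.2 hj)
    rw [mul_assoc, Real.exp_nat_mul]
    refine pow_le_pow_left₀ (by positivity) ?_ e
    have h1 : ((A : ℝ) + 1) * (Λ + 1) ≤ Real.exp ((A + 1) * (Λ + 1)) := by
      linarith [Real.add_one_le_exp (((A : ℝ) + 1) * (Λ + 1))]
    have h2 : ((L : ℝ) + 1) ^ j ≤ Real.exp (j * (L + 1)) := by
      rw [Real.exp_nat_mul]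
      exact pow_le_pow_left₀ (by positivity) (by linarith [Real.add_one_le_exp ((L : ℝ) + 1)]) j
    rw [← mul_assoc]
    refine (mul_le_mul h1 h2 (by positivity) (by positivity)).trans ?_
    rw [← Real.exp_add, Real.exp_le_exp]
    have : (0 : ℝ) ≤ j * ((A + 1) * (Λ + 1)) := by positivity
    have : (0 : ℝ) ≤ L := Nat.cast_nonneg _
    nlinarith

theorem exists_beta (K : ℕ) {η : ℝ} (hη : 0 < η) : ∃ β : ℝ, 0 ≤ β ∧ Real.exp (-β) * K ≤ η := by
  refine ⟨K / η, by positivity, ?_⟩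
  rw [Real.exp_neg, inv_mul_le_iff₀ (Real.exp_pos _), ← div_le_iff₀ hη]
  linarith [Real.add_one_le_exp ((K : ℝ) / η)]

theorem ent_le_zero {ρ : Dual B → Dual B → ℝ} {d : ℕ → ℕ} {σ : ∀ i, Γ → Equiv.Perm (Fin (d i))}
    (hB : Compressible Γ B) (h : IsGen Γ B ρ) (hσ : IsSofic d σ) : ent d σ ρ ≤ 0 := by
  classical
  refine ent_le hσ fun ε hε η hη => ?_
  obtain ⟨I, _, L, hI⟩ := hB
  obtain ⟨E, ζ, hζ, hE⟩ := h.close id (fun χ ψ H => Subtype.ext (funext H)) hε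
  choose Λ hΛ using hI
  have hη3 : 0 < η / 3 := by positivity
  obtain ⟨j, Q, hQ, hQ1, hQ2, hQ3⟩ := exists_params (Fintype.card I * E.card) L (E.sup Λ) hζ hη3
  obtain ⟨q, hq⟩ := exists_quant Q hQ
  choose x W hW using fun a => hΛ a j
  obtain ⟨β, hβ, hβ1⟩ := exists_beta (Fintype.card ((Fin j → Bool) → E → Fin Q)) hη3
  obtain ⟨T, hT⟩ : ∃ T : Finset (Γ × B), ∀ a ∈ E, ∀ v u, ∀ p ∈ W a v, (p.2.1⁻¹, x a u p.2.2) ∈ T := by
    refine ⟨E.biUnion fun a => Finset.univ.biUnion fun v => Finset.univ.biUnion fun u =>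
      ((W a v).map fun p => (p.2.1⁻¹, x a u p.2.2)).toFinset, fun a ha v u p hp => ?_⟩
    simp only [Finset.mem_biUnion, Finset.mem_univ, true_and, List.mem_toFinset]
    exact ⟨a, ha, v, u, List.mem_map_of_mem hp⟩
  obtain ⟨M, hM⟩ : ∃ M : ℕ, M = E.sup Λ * L ^ j := ⟨_, rfl⟩
  obtain ⟨c, hc⟩ : ∃ c : ℕ, c = Fintype.card (Fin j → Bool) := ⟨_, rfl⟩
  have hc2 : (c : ℝ) = 2 ^ j := by simp [hc]
  have hc1 : (1 : ℝ) ≤ c := hc2 ▸ one_le_pow₀ (by norm_num)
  have hξ : 0 < ζ / (4 * (M * c + 1)) := by positivity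
  obtain ⟨F, δ, hδ, H⟩ := Small.exists T _ (fun t _ => small_coord h hσ t.1 t.2 hξ)
    (η / 3 / (β + 1)) (by positivity)
  refine ⟨F, δ, hδ, H.mono fun i hi S hS hsep => ?_⟩
  let bad : (Fin (d i) → Dual B) → Fin (d i) → Prop := fun φ w => ∃ t ∈ T,
    ζ / (4 * (M * c + 1)) < ‖(φ (σ i t.1 w)).1 t.2 - (act t.1 (φ w)).1 t.2‖
  have key := count_codes (Fintype.piFinset fun _ : Fin j → Bool => S)
    (fun Φ w => ((fun (a : E) (k : I) => q (∑ u, (Φ u w).1 (x a u k))),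
      if ∃ u, bad (Φ u) w then some (fun u (a : E) => q ((Φ u w).1 a)) else none))
    (by
      intro Φ hΦ Ψ hΨ heq
      rw [Finset.mem_coe, Fintype.mem_piFinset] at hΦ hΨ
      funext v
      by_contra hne
      obtain ⟨w, hw⟩ := hsep _ (hΦ v) _ (hΨ v) hne
      refine absurd (hE _ _ fun a ha => ?_) (not_lt.2 hw)
      have e2 := congrArg Prod.snd (congrFun heq w)
      simp only at e2
      by_cases b1 : ∃ u, bad (Φ u) w <;> by_cases b2 : ∃ u, bad (Ψ u) w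
      · rw [if_pos b1, if_pos b2, Option.some.injEq] at e2
        exact (hq _ _ (congrFun (congrFun e2 v) ⟨a, ha⟩)).trans hQ1
      · rw [if_pos b1, if_neg b2] at e2
        exact absurd e2 (by simp)
      · rw [if_neg b1, if_pos b2] at e2
        exact absurd e2 (by simp)
      · have := code_close (σ i) Φ Ψ a (x a) (W a v) v (hW a v).2 w
          (fun u p hp => not_lt.1 fun hb => b1 ⟨u, _, hT a ha v u p hp, hb⟩)
          (fun u p hp => not_lt.1 fun hb => b2 ⟨u, _, hT a ha v u p hp, hb⟩)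
          (fun w' k => hq _ _ (congrFun (congrFun (congrArg Prod.fst (congrFun heq w')) ⟨a, ha⟩) k))
        refine this.trans ?_
        have hl : (W a v).length ≤ M :=
          (hW a v).1.trans (hM ▸ Nat.mul_le_mul_right _ (Finset.le_sup (f := Λ) ha))
        have hl' : ((W a v).length : ℝ) ≤ M := by exact_mod_cast hl
        refine (mul_le_mul_of_nonneg_right hl' (by positivity)).trans ?_
        rw [← hM] at hQ2
        rw [← hc]
        have : (M : ℝ) * (2 * (c * (ζ / (4 * (M * c + 1))))) ≤ ζ / 2 := by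
          rw [show (M : ℝ) * (2 * (c * (ζ / (4 * (M * c + 1))))) = ζ / 2 * ((M * c) / (M * c + 1)) by
            field_simp; ring]
          exact mul_le_of_le_one_right (by positivity) ((div_le_one (by positivity)).2 (by linarith))
        linarith)
    (c * (η / 3 / (β + 1) * d i)) β hβ
    (by
      intro Φ hΦ
      rw [Fintype.mem_piFinset] at hΦ
      have := cnt_exists Finset.univ (fun u => bad (Φ u)) _ fun u _ => hi _ (hS _ (hΦ u))
      rw [Finset.card_univ, ← hc] at this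
      refine (cnt_mono fun w hw => ?_).trans this
      by_contra hb
      simp only [Finset.mem_univ, true_and] at hb
      simp [hb] at hw)
  rw [Fintype.card_piFinset, Finset.prod_const, Finset.card_univ, ← hc] at key
  have k1 : (Fintype.card (E → I → Fin Q) : ℝ) ≤ Real.exp (η / 3 * c) := by
    rw [hc2]
    refine le_of_eq_of_le ?_ hQ3
    simp [pow_mul]
  have k2 : 1 + Real.exp (-β) * Fintype.card ((Fin j → Bool) → E → Fin Q) ≤ Real.exp (η / 3 * c) := by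
    have := Real.add_one_le_exp (η / 3 * c)
    nlinarith
  have k3 : β * (c * (η / 3 / (β + 1) * d i)) ≤ η / 3 * c * d i := by
    rw [show β * (c * (η / 3 / (β + 1) * d i)) = η / 3 * c * d i * (β / (β + 1)) by field_simp]
    exact mul_le_of_le_one_right (by positivity) ((div_le_one (by positivity)).2 (by linarith))
  have k4 := key.trans (mul_le_mul (Real.exp_le_exp.2 k3) (pow_le_pow_left₀ (by positivity)
    (mul_le_mul k1 k2 (by positivity) (by positivity)) _) (by positivity) (by positivity))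
  rw [← Real.exp_add, ← Real.exp_nat_mul, ← Real.exp_add,
    show η / 3 * c * d i + d i * (η / 3 * c + η / 3 * c) = c * (η * d i) by ring, Real.exp_nat_mul] at k4
  push_cast at k4
  exact le_of_pow_le_pow_left₀ (by rintro rfl; norm_num at hc1) (by positivity) k4

theorem hasEnt_zero [Countable B] {d : ℕ → ℕ} {σ : ∀ i, Γ → Equiv.Perm (Fin (d i))}
    (hB : Compressible Γ B) (hσ : IsSofic d σ) : HasEnt d σ B 0 :=
  ⟨exists_isGen, fun _ h => le_antisymm (ent_le_zero hB h hσ) (ent_nonneg h hσ)⟩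

end Pool.Agent.P.MP_5ec319_an
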